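import Mathlib

/-!
# From an almost monotone ratio to the limit of the ratio
-/

namespace Pool.Agent.Lib.MP_4eff47_co

open Filter Topology

lemma exists_pow_lt' {K : ℝ} (hK : 1 < K) (L : ℕ) : ∃ c : ℝ, 1 < c ∧ c ^ L < K := by
  have h1 : ∀ᶠ c in 𝓝[>] (1 : ℝ), c ^ L < K := by
    have h2 : Tendsto (fun c : ℝ => c ^ L) (𝓝 1) (𝓝 1) :=
      (continuous_pow L).tendsto' 1 1 (one_pow _)
    exact (h2.eventually_lt_const hK).filter_mono nhdsWithin_le_nhds
  obtain ⟨c, h2, h3⟩ := (h1.and self_mem_nhdsWithin).exists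
  exact ⟨c, h3, h2⟩

/-- If `a n ≤ 4 ^ n`, `a` has exponential growth rate at least `4`, and the inverse ratios
`a n / a (n + 1)` increase by at most `C / n`, then the ratio tends to `4`. -/
theorem ratio_limit (a : ℕ → ℝ) (hup : ∀ n, a n ≤ 4 ^ n)
    (hlow : ∀ c : ℝ, 1 < c → ∀ᶠ n : ℕ in atTop, (4 : ℝ) ^ n ≤ c ^ n * a n) (C : ℝ) (hC0 : 0 < C)
    (hC : ∀ᶠ n : ℕ in atTop, a (n + 1) / a (n + 2) ≤ a n / a (n + 1) + C / n) :
    Tendsto (fun n => a (n + 1) / a n) atTop (𝓝 4) := by
  have hpos : ∀ᶠ n : ℕ in atTop, 0 < a n := by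
    filter_upwards [hlow 2 (by norm_num)] with n hn
    by_contra h
    push Not at h
    have h1 : (2 : ℝ) ^ n * a n ≤ 0 := mul_nonpos_of_nonneg_of_nonpos (by positivity) h
    have h2 : (0 : ℝ) < 4 ^ n := by positivity
    linarith
  obtain ⟨n0, hn0⟩ := eventually_atTop.1 (hpos.and (hC.and (eventually_ge_atTop 1)))
  have hp : ∀ n, n0 ≤ n → 0 < a n := fun n hn => (hn0 n hn).1
  have hr : ∀ n, n0 ≤ n → a (n + 1) / a (n + 2) ≤ a n / a (n + 1) + C / n :=
    fun n hn => (hn0 n hn).2.1
  have hn1 : ∀ n, n0 ≤ n → 1 ≤ n := fun n hn => (hn0 n hn).2.2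
  -- telescoping
  have tel : ∀ n, n0 ≤ n → ∀ j, a (n + j) / a (n + j + 1) ≤ a n / a (n + 1) + C * j / n := by
    intro n hn j
    induction j with
    | zero => simp
    | succ j ih =>
      have h1 := hr (n + j) (by omega)
      have h2 : C / ((n + j : ℕ) : ℝ) ≤ C / n := by
        have h3 := hn1 n hn
        apply div_le_div_of_nonneg_left hC0.le (by exact_mod_cast h3)
        exact_mod_cast Nat.le_add_right n j
      have h3 : C * ((j + 1 : ℕ) : ℝ) / n = C * j / n + C / n := by
        push_cast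
        ring
      rw [h3]
      have h4 : a (n + (j + 1)) / a (n + (j + 1) + 1) = a (n + j + 1) / a (n + j + 2) := rfl
      rw [h4]
      linarith
  have prodU : ∀ n, n0 ≤ n → ∀ ρ : ℝ, 0 ≤ ρ → ∀ m, (∀ j < m, a (n + j) / a (n + j + 1) ≤ ρ) →
      a n ≤ a (n + m) * ρ ^ m := by
    intro n hn ρ hρ m
    induction m with
    | zero => intro _; simp
    | succ m ih =>
      intro h
      have h1 := ih (fun j hj => h j (by omega))
      have h2 := h m (by omega)
      have h3 := hp (n + m + 1) (by omega)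
      rw [div_le_iff₀ h3] at h2
      calc a n ≤ a (n + m) * ρ ^ m := h1
        _ ≤ (ρ * a (n + m + 1)) * ρ ^ m := mul_le_mul_of_nonneg_right h2 (pow_nonneg hρ m)
        _ = a (n + (m + 1)) * ρ ^ (m + 1) := by
            rw [pow_succ]
            have : n + (m + 1) = n + m + 1 := rfl
            rw [this]
            ring
  have prodL : ∀ n, n0 ≤ n → ∀ ρ : ℝ, 0 ≤ ρ → ∀ m, (∀ j < m, ρ ≤ a (n + j) / a (n + j + 1)) →
      a (n + m) * ρ ^ m ≤ a n := by
    intro n hn ρ hρ m
    induction m with
    | zero => intro _; simp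
    | succ m ih =>
      intro h
      have h1 := ih (fun j hj => h j (by omega))
      have h2 := h m (by omega)
      have h3 := hp (n + m + 1) (by omega)
      rw [le_div_iff₀ h3] at h2
      calc a (n + (m + 1)) * ρ ^ (m + 1) = (ρ * a (n + m + 1)) * ρ ^ m := by
            rw [pow_succ]
            have : n + (m + 1) = n + m + 1 := rfl
            rw [this]
            ring
        _ ≤ a (n + m) * ρ ^ m := mul_le_mul_of_nonneg_right h2 (pow_nonneg hρ m)
        _ ≤ a n := h1
  -- main claim
  have main : Tendsto (fun n => a n / a (n + 1)) atTop (𝓝 (1 / 4)) := by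
    rw [Metric.tendsto_atTop]
    intro ε' hε'
    set ε := min ε' (1 / 8) with hε
    have hε0 : 0 < ε := lt_min hε' (by norm_num)
    have hε8 : ε ≤ 1 / 8 := min_le_right _ _
    -- the block length
    obtain ⟨L, hL⟩ := exists_nat_gt (4 * C / ε + 2)
    have hL2 : (2 : ℝ) < L := by
      have : 0 < 4 * C / ε := by positivity
      linarith
    have hL2' : 2 < L := by exact_mod_cast hL2
    have hLε : 4 * C < ε * L := by
      have : 4 * C / ε < L := by linarith
      rw [div_lt_iff₀ hε0] at this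
      linarith
    obtain ⟨c1, hc1, hc1'⟩ := exists_pow_lt' (K := 1 / (1 - 2 * ε))
      (by rw [lt_div_iff₀ (by linarith)]; linarith) (2 * L)
    obtain ⟨c2, hc2, hc2'⟩ := exists_pow_lt' (K := 1 + 2 * ε) (by linarith) (2 * L)
    obtain ⟨N1, hN1⟩ := eventually_atTop.1 (hlow c1 hc1)
    obtain ⟨N2, hN2⟩ := eventually_atTop.1 (hlow c2 hc2)
    refine ⟨2 * n0 + N1 + N2 + L, fun n hn => ?_⟩
    set m := n / L with hm
    have hLpos : 0 < L := by omega
    have hm1 : 1 ≤ m := by
      rw [hm, Nat.le_div_iff_mul_le hLpos]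
      omega
    have hmL : m * L ≤ n := Nat.div_mul_le_self _ _
    have hmL2 : n < m * L + L := by
      have := Nat.lt_div_mul_add hLpos (a := n)
      omega
    have hnpos : 0 < n := by omega
    have hnpos' : (0 : ℝ) < n := by exact_mod_cast hnpos
    have hmLR : (m : ℝ) * L ≤ n := by exact_mod_cast hmL
    have hm2 : 2 * m ≤ n := by
      have : 2 * m ≤ L * m := Nat.mul_le_mul_right m (by omega)
      rw [mul_comm L m] at this
      omega
    have hnm : n ≤ 2 * L * m := by
      have : L ≤ L * m := Nat.le_mul_of_pos_right L hm1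
      calc n ≤ m * L + L := hmL2.le
        _ ≤ m * L + L * m := Nat.add_le_add_left this _
        _ = _ := by ring
    -- `c ^ n ≤ (c ^ (2 L)) ^ m`
    have hcpow : ∀ c : ℝ, 1 < c → c ^ n ≤ (c ^ (2 * L)) ^ m := by
      intro c hc
      rw [← pow_mul]
      exact pow_le_pow_right₀ hc.le hnm
    have lowbd : 1 / 4 - ε < a n / a (n + 1) := by
      by_contra hcon
      push Not at hcon
      have h1 : ∀ j < m, a (n + j) / a (n + j + 1) ≤ 1 / 4 - ε / 2 := by
        intro j hj
        have h2 := tel n (by omega) j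
        have h3 : C * j / n ≤ ε / 2 := by
          rw [div_le_iff₀ hnpos']
          have h4 : (j : ℝ) ≤ m := by exact_mod_cast hj.le
          have h5 : C * j ≤ C * m := mul_le_mul_of_nonneg_left h4 hC0.le
          have h6 : 4 * (C * m) ≤ ε * n := by
            calc 4 * (C * m) = (4 * C) * m := by ring
              _ ≤ (ε * L) * m := mul_le_mul_of_nonneg_right hLε.le (Nat.cast_nonneg _)
              _ = ε * (m * L) := by ring
              _ ≤ ε * n := mul_le_mul_of_nonneg_left hmLR hε0.le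
          have h7 : 0 ≤ C * m := by positivity
          linarith
        linarith
      have h2 := prodU n (by omega) (1 / 4 - ε / 2) (by linarith) m h1
      have h3 := hup (n + m)
      have h4 := hN1 n (by omega)
      have hρ : (0 : ℝ) ≤ (1 / 4 - ε / 2) ^ m := pow_nonneg (by linarith) m
      have h5 : a n ≤ 4 ^ n * (1 - 2 * ε) ^ m := by
        calc a n ≤ a (n + m) * (1 / 4 - ε / 2) ^ m := h2
          _ ≤ 4 ^ (n + m) * (1 / 4 - ε / 2) ^ m := mul_le_mul_of_nonneg_right h3 hρ
          _ = 4 ^ n * (4 * (1 / 4 - ε / 2)) ^ m := by rw [pow_add, mul_pow]; ring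
          _ = _ := by congr 2; ring
      have h6 : (4 : ℝ) ^ n ≤ (c1 ^ (2 * L)) ^ m * (4 ^ n * (1 - 2 * ε) ^ m) := by
        refine h4.trans ?_
        have h7 : (0 : ℝ) ≤ c1 ^ n := pow_nonneg (by linarith) n
        have h8 : (0 : ℝ) ≤ 4 ^ n * (1 - 2 * ε) ^ m :=
          mul_nonneg (by positivity) (pow_nonneg (by linarith) m)
        calc c1 ^ n * a n ≤ c1 ^ n * (4 ^ n * (1 - 2 * ε) ^ m) :=
              mul_le_mul_of_nonneg_left h5 h7
          _ ≤ _ := mul_le_mul_of_nonneg_right (hcpow c1 hc1) h8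
      have h7 : (c1 ^ (2 * L)) ^ m * (4 ^ n * (1 - 2 * ε) ^ m) =
          4 ^ n * (c1 ^ (2 * L) * (1 - 2 * ε)) ^ m := by
        rw [mul_pow]
        ring
      rw [h7] at h6
      have h8 : c1 ^ (2 * L) * (1 - 2 * ε) < 1 := by
        rw [lt_div_iff₀ (by linarith)] at hc1'
        exact hc1'
      have h9 : (c1 ^ (2 * L) * (1 - 2 * ε)) ^ m < 1 := by
        apply pow_lt_one₀ _ h8 (by omega)
        exact mul_nonneg (pow_nonneg (by linarith) _) (by linarith)
      have h10 : (0 : ℝ) < 4 ^ n := by positivity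
      have h11 : (4 : ℝ) ^ n * (c1 ^ (2 * L) * (1 - 2 * ε)) ^ m < 4 ^ n * 1 :=
        mul_lt_mul_of_pos_left h9 h10
      linarith
    have upbd : a n / a (n + 1) < 1 / 4 + ε := by
      by_contra hcon
      push Not at hcon
      set k := n - m with hk
      have hkn : k + m = n := by omega
      have hk0 : n0 ≤ k := by omega
      have hkpos : (0 : ℝ) < k := by
        have : 0 < k := by omega
        exact_mod_cast this
      have h1 : ∀ j < m, 1 / 4 + ε / 2 ≤ a (k + j) / a (k + j + 1) := by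
        intro j hj
        have h2 := tel (k + j) (by omega) (m - j)
        have e : k + j + (m - j) = n := by omega
        rw [e] at h2
        have h3 : C * ((m - j : ℕ) : ℝ) / ((k + j : ℕ) : ℝ) ≤ ε / 2 := by
          have hkj : (0 : ℝ) < ((k + j : ℕ) : ℝ) := by
            have : 0 < k + j := by omega
            exact_mod_cast this
          rw [div_le_iff₀ hkj]
          have h4 : ((m - j : ℕ) : ℝ) ≤ m := by exact_mod_cast Nat.sub_le m j
          have h5 : C * ((m - j : ℕ) : ℝ) ≤ C * m := mul_le_mul_of_nonneg_left h4 hC0.le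
          have h6 : 4 * (C * m) ≤ ε * n := by
            calc 4 * (C * m) = (4 * C) * m := by ring
              _ ≤ (ε * L) * m := mul_le_mul_of_nonneg_right hLε.le (Nat.cast_nonneg _)
              _ = ε * (m * L) := by ring
              _ ≤ ε * n := mul_le_mul_of_nonneg_left hmLR hε0.le
          have h7 : (n : ℝ) ≤ 2 * ((k + j : ℕ) : ℝ) := by
            have : n ≤ 2 * (k + j) := by omega
            exact_mod_cast this
          have h8 : ε * n ≤ ε * (2 * ((k + j : ℕ) : ℝ)) := mul_le_mul_of_nonneg_left h7 hε0.le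
          linarith
        linarith
      have h2 := prodL k hk0 (1 / 4 + ε / 2) (by linarith) m h1
      rw [hkn] at h2
      have h3 := hup k
      have h4 := hN2 n (by omega)
      have hρ : (0 : ℝ) < (1 / 4 + ε / 2) ^ m := pow_pos (by linarith) m
      have h5 : a n * (1 + 2 * ε) ^ m ≤ 4 ^ n := by
        calc a n * (1 + 2 * ε) ^ m = (a n * (1 / 4 + ε / 2) ^ m) * 4 ^ m := by
              rw [mul_assoc, ← mul_pow]
              congr 2
              ring
          _ ≤ 4 ^ k * 4 ^ m := mul_le_mul_of_nonneg_right (h2.trans h3) (by positivity)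
          _ = 4 ^ n := by rw [← pow_add, hkn]
      have hapos := hp n (by omega)
      have h6 : (4 : ℝ) ^ n ≤ (c2 ^ (2 * L)) ^ m * a n :=
        h4.trans (mul_le_mul_of_nonneg_right (hcpow c2 hc2) hapos.le)
      have h7 : (c2 ^ (2 * L)) ^ m < (1 + 2 * ε) ^ m :=
        pow_lt_pow_left₀ hc2' (pow_nonneg (by linarith) _) (by omega)
      have h8 : (c2 ^ (2 * L)) ^ m * a n < (1 + 2 * ε) ^ m * a n :=
        mul_lt_mul_of_pos_right h7 hapos
      linarith
    rw [Real.dist_eq, abs_lt]
    have : ε ≤ ε' := min_le_left _ _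
    constructor <;> linarith
  have h2 := main.inv₀ (by norm_num)
  have h3 : (fun n => a (n + 1) / a n) = fun n => (a n / a (n + 1))⁻¹ := by
    funext n
    rw [inv_div]
  rw [h3]
  convert h2 using 2
  norm_num

end Pool.Agent.Lib.MP_4eff47_co
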