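import Pool.Agent.Lib.MP_4eff47_co.Graph

/-!
# The forcibly biconnected property is invariant under the Havel-Hakimi move
-/

namespace Pool.Agent.Lib.MP_4eff47_co

open Finset
open scoped Classical

set_option linter.unusedSectionVars false

variable {V : Type*} [Fintype V]

/-- Transfer `m` units of degree from `v` to the cut vertex `v1`. -/
theorem transfer (v v1 : V) (A : Finset V) (hv : v ∉ A) (hne : v ≠ v1) :
    ∀ (m : ℕ) (H : SimpleGraph V), IsCut H v1 A →
    m ≤ ((nb H v).erase v1 \ nb H v1).card →
    ∃ H' : SimpleGraph V, IsCut H' v1 A ∧ dg H' v + m = dg H v ∧ dg H' v1 = dg H v1 + m ∧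
      ∀ w, w ≠ v → w ≠ v1 → dg H' w = dg H w := by
  intro m
  induction m with
  | zero =>
    intro H hcut _
    exact ⟨H, hcut, rfl, rfl, fun _ _ _ => rfl⟩
  | succ m ih =>
    intro H hcut hm
    obtain ⟨z, hz⟩ : ((nb H v).erase v1 \ nb H v1).Nonempty := by
      rw [← card_pos]
      omega
    have hz' := hz
    rw [mem_sdiff, mem_erase, mem_nb, mem_nb] at hz
    obtain ⟨⟨hzv1, hvz⟩, hv1z⟩ := hz
    have hzA : z ∉ A := by
      intro h
      rcases hcut.2 z h v hvz.symm with h3 | h3
      · exact hv h3
      · exact hne h3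
    have hn : ¬ H.Adj z v1 := fun h => hv1z h.symm
    set H1 := mv H z v v1 with hH1
    have c1 : IsCut H1 v1 A := isCut_mv hcut hzA hcut.1
    have hset : ((nb H v).erase v1 \ nb H v1).erase z ⊆ (nb H1 v).erase v1 \ nb H1 v1 := by
      intro w hw
      rw [hH1, nb_mv_x hvz.symm hne, nb_mv_y hvz.symm hzv1 hne]
      simp only [mem_erase, mem_sdiff, mem_insert, not_or] at hw ⊢
      tauto
    have hcard := card_le_card hset
    rw [card_erase_of_mem hz'] at hcard
    obtain ⟨H', e1, e2, e3, e4⟩ := ih H1 c1 (by omega)
    have f1 := dg_mv_x hvz.symm hne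
    have f2 := dg_mv_y hvz.symm hzv1 hne hn
    rw [← hH1] at f1 f2
    refine ⟨H', e1, by omega, by omega, ?_⟩
    intro w h1 h2
    rw [e4 w h1 h2, hH1, dg_mv_of_ne hvz.symm hzv1 hne hn h1 h2]

/-- Move the cut vertex to a vertex of at least the same degree. -/
theorem relocate {G : SimpleGraph V} {v v1 : V} {A : Finset V} (hcut : IsCut G v A)
    (hv1A : v1 ∉ A) (hne : v1 ≠ v) (hle : dg G v ≤ dg G v1) :
    ∃ G' : SimpleGraph V, (∀ w, dg G' w = dg G w) ∧ IsCut G' v1 A := by
  set σ := Equiv.swap v v1 with hσ
  set H : SimpleGraph V := G.comap σ with hH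
  have hadj : ∀ a b, H.Adj a b ↔ G.Adj (σ a) (σ b) := fun a b => Iff.rfl
  have hdg : ∀ w, dg H w = dg G (σ w) := by
    intro w
    unfold dg
    have : nb G (σ w) = (nb H w).map σ.toEmbedding := by
      ext u
      rw [mem_nb, mem_map_equiv, mem_nb, hadj, Equiv.apply_symm_apply]
    rw [this, card_map]
  have hσA : ∀ a, σ a ∈ A → a ∈ A := by
    intro a ha
    have h1 : σ a ≠ v := fun h => hcut.1 (h ▸ ha)
    have h2 : σ a ≠ v1 := fun h => hv1A (h ▸ ha)
    have h3 : σ (σ a) = σ a := Equiv.swap_apply_of_ne_of_ne h1 h2
    have h4 : σ a = a := σ.injective h3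
    rw [h4] at ha
    exact ha
  have hc : IsCut H v1 A := by
    refine ⟨hv1A, ?_⟩
    intro a ha w haw
    have h1 : a ≠ v := fun h => hcut.1 (h ▸ ha)
    have h2 : a ≠ v1 := fun h => hv1A (h ▸ ha)
    have h3 : σ a = a := Equiv.swap_apply_of_ne_of_ne h1 h2
    rw [hadj, h3] at haw
    rcases hcut.2 a ha _ haw with h4 | h4
    · exact Or.inl (hσA w h4)
    · right
      have : σ (σ w) = σ v := by rw [h4]
      rw [hσ, Equiv.swap_apply_left, Equiv.swap_apply_self] at this
      exact this
  have dv : dg H v = dg G v1 := by rw [hdg, hσ, Equiv.swap_apply_left]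
  have dv1 : dg H v1 = dg G v := by rw [hdg, hσ, Equiv.swap_apply_right]
  have hm : dg G v1 - dg G v ≤ ((nb H v).erase v1 \ nb H v1).card := by
    have h1 : (nb H v).erase v1 \ nb H v1 = (nb H v).erase v1 \ (nb H v1).erase v := by
      ext w
      simp only [mem_sdiff, mem_erase, mem_nb, not_and]
      constructor
      · rintro ⟨h2, h3⟩
        exact ⟨h2, fun _ => h3⟩
      · rintro ⟨h2, h3⟩
        exact ⟨h2, h3 h2.2.ne.symm⟩
    rw [h1]
    have h2 := le_card_sdiff ((nb H v1).erase v) ((nb H v).erase v1)
    have h3 : ((nb H v1).erase v).card + dg G v1 = ((nb H v).erase v1).card + dg G v := by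
      rw [← dv, ← dv1]
      unfold dg
      by_cases hadj' : H.Adj v v1
      · have e1 := card_erase_add_one (mem_nb.2 hadj')
        have e2 := card_erase_add_one (mem_nb.2 hadj'.symm)
        omega
      · rw [erase_eq_of_notMem (fun h => hadj' (mem_nb.1 h).symm),
          erase_eq_of_notMem (fun h => hadj' (mem_nb.1 h))]
        omega
    omega
  have hvA := hcut.1
  obtain ⟨G', e1, e2, e3, e4⟩ := transfer v v1 A hvA hne.symm _ H hc hm
  refine ⟨G', ?_, e1⟩
  intro w
  by_cases hwv : w = v
  · subst hwv
    omega
  · by_cases hwv1 : w = v1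
    · subst hwv1
      omega
    · rw [e4 w hwv hwv1, hdg, hσ, Equiv.swap_apply_of_ne_of_ne hwv hwv1]

/-- `G` has a cut vertex separating two nonempty sides (possibly `G` is disconnected). -/
def HasCut (G : SimpleGraph V) : Prop :=
  ∃ v A, IsCut G v A ∧ A.Nonempty ∧ ∃ b, b ∉ A ∧ b ≠ v

lemma isCut_compl {G : SimpleGraph V} {v : V} {A : Finset V} (h : IsCut G v A) :
    IsCut G v (univ \ insert v A) := by
  refine ⟨by simp, ?_⟩
  intro b hb w hbw
  simp only [mem_sdiff, mem_univ, true_and, mem_insert, not_or] at hb ⊢
  by_cases hw : w = v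
  · exact Or.inr hw
  · left
    refine ⟨hw, ?_⟩
    intro hwA
    rcases h.2 w hwA b hbw.symm with h3 | h3
    · exact hb.2 h3
    · exact hb.1 h3

lemma HasCut.small {G : SimpleGraph V} (h : HasCut G) :
    ∃ v A, IsCut G v A ∧ A.Nonempty ∧ 2 * A.card + 1 ≤ Fintype.card V := by
  obtain ⟨v, A, hc, hA, b, hb, hbv⟩ := h
  by_cases hs : 2 * A.card + 1 ≤ Fintype.card V
  · exact ⟨v, A, hc, hA, hs⟩
  · refine ⟨v, univ \ insert v A, isCut_compl hc, ⟨b, by simp [hb, hbv]⟩, ?_⟩
    have h1 : (univ \ insert v A).card + (insert v A).card = Fintype.card V := by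
      rw [card_sdiff_add_card_eq_card (subset_univ _), card_univ]
    rw [card_insert_of_notMem hc.1] at h1
    omega

lemma hasCut_of_small {G : SimpleGraph V} {v : V} {A : Finset V} (hc : IsCut G v A)
    (hA : A.Nonempty) (h : A.card + 1 < Fintype.card V) : HasCut G := by
  refine ⟨v, A, hc, hA, ?_⟩
  by_contra hne
  push Not at hne
  have h1 : (univ : Finset V) ⊆ insert v A := by
    intro b _
    rw [mem_insert]
    by_cases hb : b ∈ A
    · exact Or.inr hb
    · exact Or.inl (hne b hb)
  have h2 := card_le_card h1
  rw [card_insert_of_notMem hc.1, card_univ] at h2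
  omega

lemma dg_le_of_mem {G : SimpleGraph V} {v : V} {A : Finset V} (hc : IsCut G v A) {a : V}
    (ha : a ∈ A) : dg G a ≤ A.card := by
  have h1 : nb G a ⊆ insert v (A.erase a) := by
    intro w hw
    rw [mem_nb] at hw
    rw [mem_insert, mem_erase]
    rcases hc.2 a ha w hw with h | h
    · exact Or.inr ⟨hw.ne.symm, h⟩
    · exact Or.inl h
  have h2 := card_le_card h1
  have h3 := card_insert_le v (A.erase a)
  have h4 := card_erase_add_one ha
  unfold dg
  omega

lemma dg_le_of_notMem {G : SimpleGraph V} {v : V} {A : Finset V} (hc : IsCut G v A) {w : V}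
    (hw : w ∉ A) (hwv : w ≠ v) : dg G w + A.card + 1 ≤ Fintype.card V := by
  have h1 : nb G w ⊆ univ \ insert w A := by
    intro u hu
    rw [mem_nb] at hu
    simp only [mem_sdiff, mem_univ, true_and, mem_insert, not_or]
    refine ⟨hu.ne.symm, ?_⟩
    intro huA
    rcases hc.2 u huA w hu.symm with h | h
    · exact hw h
    · exact hwv h
  have h2 := card_le_card h1
  have h3 : (univ \ insert w A).card + (insert w A).card = Fintype.card V := by
    rw [card_sdiff_add_card_eq_card (subset_univ _), card_univ]
  rw [card_insert_of_notMem hw] at h3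
  unfold dg
  omega

/-- `G` realizes `d`. -/
def RealT (d : V → ℕ) (G : SimpleGraph V) : Prop := ∀ v, dg G v = d v

/-- Forcibly biconnected, on any vertex type (at least 3 vertices are not required here). -/
def FBt (d : V → ℕ) : Prop := (∃ G, RealT d G) ∧ ∀ G, RealT d G → ¬ HasCut G

/-- The degree function after adding a vertex joined to `T`. -/
noncomputable def dplus (d : V → ℕ) (T : Finset V) : Option V → ℕ
  | none => T.card
  | some a => d a + if a ∈ T then 1 else 0

/-- Add a vertex joined to `T`. -/
def Gplus (G : SimpleGraph V) (T : Finset V) : SimpleGraph (Option V) where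
  Adj x y := match x, y with
    | none, none => False
    | none, some b => b ∈ T
    | some a, none => a ∈ T
    | some a, some b => G.Adj a b
  symm := ⟨by
    rintro (_ | a) (_ | b) h
    · exact h
    · exact h
    · exact h
    · exact SimpleGraph.Adj.symm (G := G) h⟩
  loopless := ⟨by
    rintro (_ | a) h
    · exact h
    · exact G.loopless.irrefl a h⟩

lemma dg_Gplus (G : SimpleGraph V) (T : Finset V) : RealT (dplus (dg G) T) (Gplus G T) := by
  intro x
  unfold dg
  cases x with
  | none =>
    have : nb (Gplus G T) none = T.map Function.Embedding.some := by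
      ext y
      rw [mem_nb, mem_map]
      cases y with
      | none => simp [Gplus]
      | some b => simp [Gplus]
    rw [this, card_map]
    rfl
  | some a =>
    have : nb (Gplus G T) (some a) =
        (nb G a).map Function.Embedding.some ∪ (if a ∈ T then {none} else ∅) := by
      ext y
      rw [mem_nb, mem_union, mem_map]
      cases y with
      | none => by_cases h : a ∈ T <;> simp [Gplus, h]
      | some b => by_cases h : a ∈ T <;> simp [Gplus, h]
    rw [this, card_union_of_disjoint, card_map]
    · unfold dplus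
      by_cases h : a ∈ T <;> simp [h, dg]
    · rw [disjoint_left]
      intro y hy
      rw [mem_map] at hy
      obtain ⟨b, -, rfl⟩ := hy
      by_cases h : a ∈ T <;> simp [h]

lemma dg_comap_some (G : SimpleGraph (Option V)) (a : V) :
    dg (G.comap (some : V → Option V)) a + (if G.Adj none (some a) then 1 else 0) =
      dg G (some a) := by
  unfold dg
  have h1 : nb G (some a) = (nb (G.comap (some : V → Option V)) a).map Function.Embedding.some ∪
      (if G.Adj none (some a) then {none} else ∅) := by
    ext y
    rw [mem_nb, mem_union, mem_map]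
    cases y with
    | none => by_cases h : G.Adj none (some a) <;> simp [h, G.adj_comm (some a) none]
    | some b => by_cases h : G.Adj none (some a) <;> simp [h]
  rw [h1, card_union_of_disjoint, card_map]
  · by_cases h : G.Adj none (some a) <;> simp [h]
  · rw [disjoint_left]
    intro y hy
    rw [mem_map] at hy
    obtain ⟨b, -, rfl⟩ := hy
    by_cases h : G.Adj none (some a) <;> simp [h]

lemma realT_comap {d : V → ℕ} {T : Finset V} {G : SimpleGraph (Option V)}
    (hG : RealT (dplus d T) G) (hT : nb G none = T.map Function.Embedding.some) :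
    RealT d (G.comap (some : V → Option V)) := by
  intro a
  have h1 := dg_comap_some G a
  have h2 := hG (some a)
  have h3 : G.Adj none (some a) ↔ a ∈ T := by
    rw [← mem_nb, hT, mem_map]
    simp
  rw [h2] at h1
  unfold dplus at h1
  simp only [h3] at h1
  omega

/-- The move keeps the property of being graphical. -/
theorem graphical_iff {d : V → ℕ} {T : Finset V} (hT : T.Nonempty)
    (htop : ∀ p ∈ T, ∀ j, j ∉ T → d j ≤ d p) :
    (∃ G, RealT d G) ↔ ∃ G, RealT (dplus d T) G := by
  constructor
  · rintro ⟨G, hG⟩
    refine ⟨Gplus G T, ?_⟩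
    have h1 : dg G = d := funext hG
    have := dg_Gplus G T
    rwa [h1] at this
  · rintro ⟨G, hG⟩
    obtain ⟨v0, hv0⟩ := hT
    have h1 : ∀ p ∈ T.map Function.Embedding.some, ∀ q, q ∉ T.map Function.Embedding.some →
        q ≠ none → dg G q < dg G p := by
      intro p hp q hq hqo
      rw [mem_map] at hp
      obtain ⟨p, hp, rfl⟩ := hp
      cases q with
      | none => exact absurd rfl hqo
      | some j =>
        have hj : j ∉ T := by
          intro h
          exact hq (mem_map.2 ⟨j, h, rfl⟩)
        rw [hG, Function.Embedding.some_apply, hG]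
        unfold dplus
        simp only [hj, hp, if_true, if_false]
        have := htop p hp j hj
        omega
    obtain ⟨G', e1, -, e3⟩ := hh none (some v0) (T.map Function.Embedding.some) ∅
      (by simp) (by simp) (mem_map.2 ⟨v0, hv0, rfl⟩) (disjoint_empty_right _) _ G rfl
      (by rw [card_map, hG]; rfl) ⟨by simp, by simp⟩ h1
      (fun q hq hqo => by
        rw [card_empty, add_zero]
        exact h1 _ (mem_map.2 ⟨v0, hv0, rfl⟩) q hq hqo)
    exact ⟨_, realT_comap (fun w => by rw [e1, hG]) e3⟩

/-- The move keeps the property of having a realization that is not 2-connected. -/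
theorem cut_iff {d : V → ℕ} {T : Finset V} {q : ℕ} (hT : T.Nonempty)
    (htop : ∀ p ∈ T, ∀ j, j ∉ T → d j ≤ d p)
    (c1 : ∃ i ∈ T, ∃ j ∈ T, i ≠ j ∧ Fintype.card V ≤ d i + 1 + q ∧ Fintype.card V ≤ d j + 1 + q)
    (c2 : ∀ j, j ∉ T → d j + 2 * q < Fintype.card V)
    (c3 : ∀ p ∈ T, Fintype.card V ≤ 2 * d p)
    (c4 : q < T.card) (c5 : T.card + q < Fintype.card V) :
    (∃ G, RealT d G ∧ HasCut G) ↔ ∃ G, RealT (dplus d T) G ∧ HasCut G := by
  constructor
  · rintro ⟨G, hG, hcut⟩
    obtain ⟨v, A, hc, hA, hs⟩ := hcut.small
    have hAT : ∀ a ∈ A, a ∉ T := by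
      intro a ha haT
      have h1 := dg_le_of_mem hc ha
      have h2 := c3 a haT
      rw [hG] at h1
      omega
    refine ⟨Gplus G T, ?_, some v, A.map Function.Embedding.some, ?_, ?_, none, by simp, by simp⟩
    · have h1 : dg G = d := funext hG
      have := dg_Gplus G T
      rwa [h1] at this
    · refine ⟨by simpa using hc.1, ?_⟩
      intro a ha w haw
      rw [mem_map] at ha
      obtain ⟨a, ha, rfl⟩ := ha
      cases w with
      | none => exact absurd haw (hAT a ha)
      | some b =>
        rcases hc.2 a ha b haw with h | h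
        · exact Or.inl (mem_map.2 ⟨b, h, rfl⟩)
        · exact Or.inr (by rw [h])
    · exact hA.map
  · rintro ⟨G, hG, hcut⟩
    obtain ⟨v, A, hc, hA, hs⟩ := hcut.small
    have hcardO : Fintype.card (Option V) = Fintype.card V + 1 := Fintype.card_option
    rw [hcardO] at hs
    have hdsome : ∀ a ∈ T, dg G (some a) = d a + 1 := by
      intro a ha
      rw [hG]
      unfold dplus
      simp only [ha, if_true]
    have hdsome' : ∀ a, a ∉ T → dg G (some a) = d a := by
      intro a ha
      rw [hG]
      unfold dplus
      simp only [ha, if_false, add_zero]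
    have hdnone : dg G none = T.card := hG none
    -- all vertices but `v` have small degree
    have hsmall : ∀ w, w ≠ v → dg G w + A.card ≤ Fintype.card V := by
      intro w hw
      by_cases hwA : w ∈ A
      · have := dg_le_of_mem hc hwA
        omega
      · have := dg_le_of_notMem hc hwA hw
        omega
    have hAq : A.card ≤ q := by
      obtain ⟨i, hi, j, hj, hij, h1, h2⟩ := c1
      by_cases hiv : (some i : Option V) = v
      · have hjv : (some j : Option V) ≠ v := by
          intro h
          apply hij
          have : (some i : Option V) = some j := by rw [hiv, h]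
          exact Option.some_injective _ this
        have := hsmall _ hjv
        rw [hdsome j hj] at this
        omega
      · have := hsmall _ hiv
        rw [hdsome i hi] at this
        omega
    -- relocate the cut vertex
    obtain ⟨G1, v1, hG1, hc1, hbig⟩ : ∃ (G1 : SimpleGraph (Option V)) (v1 : Option V),
        (∀ w, dg G1 w = dg G w) ∧ IsCut G1 v1 A ∧ Fintype.card V ≤ dg G v1 + q := by
      by_cases hv : Fintype.card V ≤ dg G v + q
      · exact ⟨G, v, fun _ => rfl, hc, hv⟩
      · obtain ⟨i, hi, j, hj, hij, h1, h2⟩ := c1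
        have h3 := hdsome i hi
        have hiv : (some i : Option V) ≠ v := by
          intro h
          rw [h] at h3
          omega
        have hiA : (some i : Option V) ∉ A := by
          intro h
          have := dg_le_of_mem hc h
          omega
        obtain ⟨G', e1, e2⟩ := relocate hc hiA hiv (by omega)
        exact ⟨G', some i, e1, e2, by omega⟩
    have hv1T : ∃ t ∈ T, v1 = some t := by
      cases v1 with
      | none => omega
      | some t =>
        refine ⟨t, ?_, rfl⟩
        by_contra ht
        have h1 := hdsome' t ht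
        have h2 := c2 t ht
        omega
    obtain ⟨t, ht, rfl⟩ := hv1T
    have hnA : none ∉ A := by
      intro h
      have := dg_le_of_mem hc h
      omega
    have hTA : Disjoint (T.map Function.Embedding.some) A := by
      rw [disjoint_left]
      intro p hp hpA
      rw [mem_map] at hp
      obtain ⟨p, hp, rfl⟩ := hp
      have h1 := dg_le_of_mem hc hpA
      rw [Function.Embedding.some_apply, hdsome p hp] at h1
      have h2 := c3 p hp
      omega
    obtain ⟨G', e1, e2, e3⟩ := hh none (some t) (T.map Function.Embedding.some) A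
      (by simp) hnA (mem_map.2 ⟨t, ht, rfl⟩) hTA _ G1 rfl
      (by rw [card_map, hG1, hdnone]) hc1
      (by
        intro p hp q hq hqo
        rw [mem_map] at hp
        obtain ⟨p, hp, rfl⟩ := hp
        cases q with
        | none => exact absurd rfl hqo
        | some j =>
          have hj : j ∉ T := fun h => hq (mem_map.2 ⟨j, h, rfl⟩)
          rw [hG1, hG1, hdsome' j hj, Function.Embedding.some_apply, hdsome p hp]
          have := htop p hp j hj
          omega)
      (by
        intro q hq hqo
        cases q with
        | none => exact absurd rfl hqo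
        | some j =>
          have hj : j ∉ T := fun h => hq (mem_map.2 ⟨j, h, rfl⟩)
          rw [hG1, hG1, hdsome' j hj]
          have := c2 j hj
          omega)
    refine ⟨_, realT_comap (fun w => by rw [e1, hG1, hG]) e3, ?_⟩
    -- the cut in the smaller graph
    set A' : Finset V := univ.filter (fun a => (some a : Option V) ∈ A) with hA'
    have hmap : A'.map Function.Embedding.some = A := by
      ext x
      rw [mem_map]
      cases x with
      | none => simp [hnA]
      | some a => simp [hA']
    have hcardA : A'.card = A.card := by rw [← hmap, card_map]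
    refine hasCut_of_small (v := t) (A := A') ⟨?_, ?_⟩ ?_ ?_
    · have := e2.1
      simpa [hA'] using this
    · intro a ha w haw
      rw [hA', mem_filter] at ha
      rcases e2.2 (some a) ha.2 (some w) haw with h | h
      · left
        simpa [hA'] using h
      · right
        exact Option.some_injective _ h
    · rw [← card_pos, hcardA, card_pos]
      exact hA
    · omega

/-- The forcibly biconnected property is invariant under the move. -/
theorem fbt_iff {d : V → ℕ} {T : Finset V} {q : ℕ} (hT : T.Nonempty)
    (htop : ∀ p ∈ T, ∀ j, j ∉ T → d j ≤ d p)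
    (c1 : ∃ i ∈ T, ∃ j ∈ T, i ≠ j ∧ Fintype.card V ≤ d i + 1 + q ∧ Fintype.card V ≤ d j + 1 + q)
    (c2 : ∀ j, j ∉ T → d j + 2 * q < Fintype.card V)
    (c3 : ∀ p ∈ T, Fintype.card V ≤ 2 * d p)
    (c4 : q < T.card) (c5 : T.card + q < Fintype.card V) :
    FBt d ↔ FBt (dplus d T) := by
  have h1 := graphical_iff hT htop
  have h2 := cut_iff hT htop c1 c2 c3 c4 c5
  unfold FBt
  rw [h1]
  refine and_congr_right fun _ => ?_
  constructor
  · intro h G hG hc
    obtain ⟨G', hG', hc'⟩ := h2.2 ⟨G, hG, hc⟩
    exact h G' hG' hc'
  · intro h G hG hc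
    obtain ⟨G', hG', hc'⟩ := h2.1 ⟨G, hG, hc⟩
    exact h G' hG' hc'

end Pool.Agent.Lib.MP_4eff47_co
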