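import Mathlib

/-!
# Forcibly biconnected degree sequences: definitions
-/

namespace Pool.Agent.Lib.MP_4eff47_co

/-- A graph is 2-connected: it has at least three vertices, it is connected, and it stays
connected after deleting any one vertex. -/
def TwoConnected {V : Type*} [Fintype V] (G : SimpleGraph V) : Prop :=
  3 ≤ Fintype.card V ∧ G.Connected ∧ ∀ v : V, (G.induce {v}ᶜ).Connected

/-- `G` is a realization of the sequence `d`: the vertices are numbered so that vertex `i` has
degree `d i`. -/
def IsRealization {n : ℕ} (d : Fin n → ℕ) (G : SimpleGraph (Fin n)) : Prop :=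
  ∀ i, (G.neighborSet i).ncard = d i

/-- The sequence `d` is graphical and every realization of it is 2-connected. -/
def ForciblyBiconnected {n : ℕ} (d : Fin n → ℕ) : Prop :=
  (∃ G, IsRealization d G) ∧ ∀ G, IsRealization d G → TwoConnected G

/-- The number of forcibly biconnected graphical (non-increasing) degree sequences of
length `n`. -/
noncomputable def D2f (n : ℕ) : ℕ :=
  {d : Fin n → ℕ | Antitone d ∧ ForciblyBiconnected d}.ncard

end Pool.Agent.Lib.MP_4eff47_co
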