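import Pool.Agent.Lib.MP_4eff47_co.Move

/-!
# The double counting inequality
-/

namespace Pool.Agent.Lib.MP_4eff47_co

open Finset
open scoped Classical

set_option linter.unusedSectionVars false

/-- Cauchy-Schwarz for a family of subsets. -/
lemma cs_family {α ι : Type*} [DecidableEq α] (U : Finset α) (K : Finset ι) (A : ι → Finset α)
    (hA : ∀ k ∈ K, A k ⊆ U) :
    (∑ k ∈ K, ((A k).card : ℝ)) ^ 2 ≤
      U.card * ∑ k ∈ K, ∑ k' ∈ K, ((A k ∩ A k').card : ℝ) := by
  have e1 : ∀ k ∈ K, ((A k).card : ℝ) = ∑ x ∈ U, if x ∈ A k then (1 : ℝ) else 0 := by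
    intro k hk
    rw [← sum_filter, sum_const, nsmul_eq_mul, mul_one]
    congr 2
    ext x
    rw [mem_filter]
    exact ⟨fun h => ⟨hA k hk h, h⟩, fun h => h.2⟩
  have e2 : ∀ k ∈ K, ∀ k' ∈ K, ((A k ∩ A k').card : ℝ) =
      ∑ x ∈ U, (if x ∈ A k then (1 : ℝ) else 0) * (if x ∈ A k' then (1 : ℝ) else 0) := by
    intro k hk k' hk'
    have h1 : ∀ x ∈ U, (if x ∈ A k then (1 : ℝ) else 0) * (if x ∈ A k' then (1 : ℝ) else 0) =
        if x ∈ A k ∩ A k' then (1 : ℝ) else 0 := by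
      intro x _
      by_cases h1 : x ∈ A k <;> by_cases h2 : x ∈ A k' <;> simp [h1, h2]
    rw [sum_congr rfl h1, ← sum_filter, sum_const, nsmul_eq_mul, mul_one]
    congr 2
    ext x
    rw [mem_filter]
    exact ⟨fun h => ⟨hA k hk (mem_inter.1 h).1, h⟩, fun h => h.2⟩
  rw [sum_congr rfl e1, sum_comm,
    sum_congr rfl (fun k hk => sum_congr rfl (fun k' hk' => e2 k hk k' hk'))]
  have e3 : ∑ k ∈ K, ∑ k' ∈ K, ∑ x ∈ U,
      (if x ∈ A k then (1 : ℝ) else 0) * (if x ∈ A k' then (1 : ℝ) else 0) =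
      ∑ x ∈ U, (∑ k ∈ K, if x ∈ A k then (1 : ℝ) else 0) ^ 2 := by
    have h1 : ∀ k ∈ K, ∑ k' ∈ K, ∑ x ∈ U,
        (if x ∈ A k then (1 : ℝ) else 0) * (if x ∈ A k' then (1 : ℝ) else 0) =
        ∑ x ∈ U, ∑ k' ∈ K,
        (if x ∈ A k then (1 : ℝ) else 0) * (if x ∈ A k' then (1 : ℝ) else 0) :=
      fun k _ => sum_comm
    rw [sum_congr rfl h1, sum_comm]
    refine sum_congr rfl fun x _ => ?_
    rw [sq, sum_mul_sum]
  rw [e3]
  exact sq_sum_le_card_mul_sum_sq

/-- Typical lists. -/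
def Typ (q k0 k1 : ℕ) (l : List ℕ) : Prop :=
  (∀ i (_ : i < l.length), i < 2 → l.length ≤ l[i] + 1 + q) ∧
  (∀ i (_ : i < l.length), k0 ≤ i → l[i] + 2 * q + 2 ≤ l.length) ∧
  (∀ i (_ : i < l.length), i < k1 → l.length + 1 ≤ 2 * l[i])

/-- Typical members of `S n`. -/
noncomputable def T (q k0 k1 n : ℕ) : Finset (List ℕ) := (S n).filter (Typ q k0 k1)

lemma mem_take_getElem {l : List ℕ} {k x : ℕ} (hx : x ∈ l.take k) :
    ∃ i, ∃ h : i < l.length, i < k ∧ l[i] = x := by
  obtain ⟨i, hi, rfl⟩ := List.getElem_of_mem hx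
  rw [List.length_take] at hi
  exact ⟨i, by omega, by omega, by rw [List.getElem_take]⟩

lemma mem_drop_getElem {l : List ℕ} {k x : ℕ} (hx : x ∈ l.drop k) :
    ∃ i, ∃ h : i < l.length, k ≤ i ∧ l[i] = x := by
  obtain ⟨i, hi, rfl⟩ := List.getElem_of_mem hx
  rw [List.length_drop] at hi
  exact ⟨k + i, by omega, by omega, by rw [List.getElem_drop]⟩

lemma getElem_mem_take {l : List ℕ} {k i : ℕ} (h : i < l.length) (hi : i < k) :
    l[i] ∈ l.take k := by
  rw [List.mem_iff_getElem]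
  exact ⟨i, by rw [List.length_take]; omega, by rw [List.getElem_take]⟩

lemma getElem_mem_drop {l : List ℕ} {k i : ℕ} (h : i < l.length) (hi : k ≤ i) :
    l[i] ∈ l.drop k := by
  rw [List.mem_iff_getElem]
  refine ⟨i - k, by rw [List.length_drop]; omega, ?_⟩
  rw [List.getElem_drop]
  congr 1
  omega

section

variable {q k0 k1 n : ℕ}

lemma T_length {l : List ℕ} (hl : l ∈ T q k0 k1 n) : l.length = n :=
  (mem_S.1 (mem_filter.1 hl).1).1

lemma T_big {l : List ℕ} (hl : l ∈ T q k0 k1 n) {k : ℕ} (hk : k < k1) (h2 : 2 * k1 ≤ n) :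
    ∀ x ∈ l.take k1, k < x := by
  intro x hx
  obtain ⟨i, h, hi, rfl⟩ := mem_take_getElem hx
  have h3 := (mem_filter.1 hl).2.2.2 i h hi
  rw [T_length hl] at h3
  omega

lemma mem_take_of_le {l : List ℕ} {k k' x : ℕ} (h : k ≤ k') (hx : x ∈ l.take k) :
    x ∈ l.take k' := by
  obtain ⟨i, h1, hi, rfl⟩ := mem_take_getElem hx
  exact getElem_mem_take h1 (by omega)

/-- The insertion maps typical lists into `S (n + 1)`. -/
lemma ins_mem (h20 : 2 ≤ k0) (hq : q < k0) (h1q : k1 + q ≤ n) (h2 : 2 * k1 ≤ n) {l : List ℕ}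
    (hl : l ∈ T q k0 k1 n) {k : ℕ} (hk : k ∈ Ico k0 k1) : ins k l ∈ S (n + 1) := by
  rw [mem_Ico] at hk
  have hlen := T_length hl
  have hS := mem_S.1 (mem_filter.1 hl).1
  have hbig : ∀ x ∈ l.take k, k ≤ x := fun x hx =>
    le_of_lt (T_big hl hk.2 h2 x (mem_take_of_le (by omega) hx))
  obtain ⟨t1, t2, t3⟩ := (mem_filter.1 hl).2
  rw [mem_S]
  refine ⟨by rw [length_ins (by omega), hlen], pairwise_ins hS.2.1 hbig, ?_⟩
  rw [fbl_ins_iff (q := q) hS.2.1 (by omega)]
  · exact hS.2.2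
  · exact t1
  · intro i h hi
    have := t2 i h (by omega)
    omega
  · intro i h hi
    have := t3 i h (by omega)
    omega
  · omega
  · omega

/-- Two undone insertions. -/
lemma inter_sub (hq : q < k0) (h20 : 2 ≤ k0) (h1q : k1 + q ≤ n) (h2 : 2 * k1 ≤ n) {k k' : ℕ}
    (hk : k ∈ Ico k0 k1) (hk' : k' ∈ Ico k0 k1) (hkk : k < k') :
    ((T q k0 k1 (n + 1)).image (ins k) ∩ (T q k0 k1 (n + 1)).image (ins k')).card ≤
      (S n).card := by
  rw [mem_Ico] at hk hk'
  refine le_trans (card_le_card ?_) (card_image_le (s := S n) (f := fun m => ins k (ins k' m)))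
  intro l' hl'
  rw [mem_inter, mem_image, mem_image] at hl'
  obtain ⟨⟨l1, h1, rfl⟩, l2, h2', h3⟩ := hl'
  have hlen1 := T_length h1
  have hlen2 := T_length h2'
  have hS1 := mem_S.1 (mem_filter.1 h1).1
  have hS2 := mem_S.1 (mem_filter.1 h2').1
  have hg2 : Good k' (ins k' l2) := good_ins (by omega) hS2.2.1 (fun x hx =>
    le_of_lt (T_big h2' hk'.2 (by omega) x (mem_take_of_le (by omega) hx)))
  rw [h3] at hg2
  have hg1 : Good k' l1 := good_of_two hkk (by omega) hS1.2.1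
    (fun x hx => T_big h1 hk.2 (by omega) x (mem_take_of_le (by omega) hx)) hg2
  obtain ⟨t1, t2, t3⟩ := (mem_filter.1 h1).2
  have hm : ins k' (del k' l1) = l1 := ins_del hg1 hS1.2.1
  have hml := length_del hg1
  rw [mem_image]
  refine ⟨del k' l1, ?_, by rw [hm]⟩
  rw [mem_S]
  have hms := pairwise_del hg1 hS1.2.1
  have hmlen : (del k' l1).length = n := by omega
  have hlow : ∀ i (h : i < (del k' l1).length), i < k' →
      ∃ h' : i < l1.length, (del k' l1)[i] = l1[i] - 1 := by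
    intro i h hi
    have h4 := getElem_mem_take h hi
    refine ⟨by omega, ?_⟩
    have h5 : (del k' l1)[i] = ((del k' l1).take k')[i]'(by rw [List.length_take]; omega) := by
      rw [List.getElem_take]
    rw [h5]
    simp only [take_del hg1]
    rw [List.getElem_map, List.getElem_take]
  refine ⟨hmlen, hms, ?_⟩
  rw [← fbl_ins_iff (k := k') (q := q) hms (by omega), hm]
  · exact hS1.2.2
  · intro i h hi
    obtain ⟨h', e⟩ := hlow i h (by omega)
    rw [e]
    have := t1 i h' hi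
    omega
  · intro i h hi
    have h4 := getElem_mem_drop h hi
    rw [drop_del hg1] at h4
    obtain ⟨j, hj, hj1, hj2⟩ := mem_drop_getElem (List.mem_of_mem_erase h4)
    have := t2 j hj (by omega)
    omega
  · intro i h hi
    obtain ⟨h', e⟩ := hlow i h (by omega)
    rw [e]
    have := t3 i h' (by omega)
    omega
  · omega
  · omega

/-- The double counting inequality. -/
theorem double_count (hq : q < k0) (h20 : 2 ≤ k0) (h1q : k1 + q ≤ n) (h2 : 2 * k1 ≤ n)
    {κ : ℕ} (hκ : 0 < κ) (hk1 : k1 = k0 + κ) :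
    ((T q k0 k1 (n + 1)).card : ℝ) ^ 2 ≤
      (S (n + 2)).card * ((S n).card + (T q k0 k1 (n + 1)).card / κ) := by
  have hcard : (Ico k0 k1).card = κ := by
    rw [Nat.card_Ico]
    omega
  have h3 := cs_family (S (n + 2)) (Ico k0 k1) (fun k => (T q k0 k1 (n + 1)).image (ins k))
    (by
      intro k hk l' hl'
      rw [mem_image] at hl'
      obtain ⟨l, hl, rfl⟩ := hl'
      exact ins_mem h20 hq (by omega) (by omega) hl hk)
  have h4 : ∀ k ∈ Ico k0 k1, ((T q k0 k1 (n + 1)).image (ins k)).card =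
      (T q k0 k1 (n + 1)).card := by
    intro k hk
    rw [mem_Ico] at hk
    apply card_image_of_injOn
    intro l hl m hm hlm
    have e1 := T_length (mem_coe.1 hl)
    have e2 := T_length (mem_coe.1 hm)
    exact ins_inj (by omega) (by omega) hlm
  have h5 : ∑ k ∈ Ico k0 k1, (((T q k0 k1 (n + 1)).image (ins k)).card : ℝ) =
      κ * (T q k0 k1 (n + 1)).card := by
    rw [sum_congr rfl (fun k hk => by rw [h4 k hk]), sum_const, hcard, nsmul_eq_mul]
  have h6 : ∑ k ∈ Ico k0 k1, ∑ k' ∈ Ico k0 k1,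
      (((T q k0 k1 (n + 1)).image (ins k) ∩ (T q k0 k1 (n + 1)).image (ins k')).card : ℝ) ≤
      κ * (κ * (S n).card + (T q k0 k1 (n + 1)).card) := by
    have h7 : ∀ k ∈ Ico k0 k1, ∑ k' ∈ Ico k0 k1,
        (((T q k0 k1 (n + 1)).image (ins k) ∩ (T q k0 k1 (n + 1)).image (ins k')).card : ℝ) ≤
        κ * (S n).card + (T q k0 k1 (n + 1)).card := by
      intro k hk
      rw [← add_sum_erase _ _ hk]
      have h8 : ∑ k' ∈ (Ico k0 k1).erase k,
          (((T q k0 k1 (n + 1)).image (ins k) ∩ (T q k0 k1 (n + 1)).image (ins k')).card : ℝ) ≤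
          ∑ k' ∈ (Ico k0 k1).erase k, ((S n).card : ℝ) := by
        apply sum_le_sum
        intro k' hk'
        rw [mem_erase] at hk'
        rcases lt_or_gt_of_ne hk'.1 with h | h
        · rw [inter_comm]
          exact_mod_cast inter_sub hq h20 h1q h2 hk'.2 hk h
        · exact_mod_cast inter_sub hq h20 h1q h2 hk hk'.2 h
      rw [sum_const, nsmul_eq_mul] at h8
      have h9 : ((((Ico k0 k1).erase k).card : ℕ) : ℝ) ≤ κ := by
        rw [← hcard]
        exact_mod_cast card_le_card (erase_subset _ _)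
      have h10 : ((((Ico k0 k1).erase k).card : ℕ) : ℝ) * (S n).card ≤ κ * (S n).card :=
        mul_le_mul_of_nonneg_right h9 (Nat.cast_nonneg _)
      rw [inter_self, h4 k hk]
      linarith
    calc _ ≤ ∑ k ∈ Ico k0 k1, ((κ : ℝ) * (S n).card + (T q k0 k1 (n + 1)).card) :=
          sum_le_sum h7
      _ = _ := by rw [sum_const, hcard, nsmul_eq_mul]
  rw [h5] at h3
  have hκ' : (0 : ℝ) < κ := by exact_mod_cast hκ
  have h7 : ((κ : ℝ) * (T q k0 k1 (n + 1)).card) ^ 2 ≤
      (S (n + 2)).card * (κ * (κ * (S n).card + (T q k0 k1 (n + 1)).card)) :=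
    h3.trans (mul_le_mul_of_nonneg_left h6 (Nat.cast_nonneg _))
  have h8 : ((S (n + 2)).card : ℝ) * (κ * (κ * (S n).card + (T q k0 k1 (n + 1)).card)) =
      κ ^ 2 * ((S (n + 2)).card * ((S n).card + (T q k0 k1 (n + 1)).card / κ)) := by
    field_simp
  rw [h8, mul_pow] at h7
  exact le_of_mul_le_mul_left h7 (by positivity)

/-- The trivial inequality. -/
theorem card_T_le (hq : q < k0) (h20 : 2 ≤ k0) (h1q : k1 + q ≤ n) (h2 : 2 * k1 ≤ n)
    (hk : k0 < k1) : (T q k0 k1 n).card ≤ (S (n + 1)).card := by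
  have h4 : ((T q k0 k1 n).image (ins k0)).card = (T q k0 k1 n).card := by
    apply card_image_of_injOn
    intro l hl m hm hlm
    have e1 := T_length (mem_coe.1 hl)
    have e2 := T_length (mem_coe.1 hm)
    exact ins_inj (by omega) (by omega) hlm
  rw [← h4]
  apply card_le_card
  intro l' hl'
  rw [mem_image] at hl'
  obtain ⟨l, hl, rfl⟩ := hl'
  exact ins_mem h20 hq h1q h2 hl (mem_Ico.2 ⟨le_refl _, hk⟩)

end

end Pool.Agent.Lib.MP_4eff47_co
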