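import Pool.Agent.Lib.MP_4eff47_co.Double

/-!
# Almost all sorted lists are typical
-/

namespace Pool.Agent.Lib.MP_4eff47_co

open Finset
open scoped Classical

set_option linter.unusedSectionVars false

lemma card_split (A B X : Finset (List ℕ)) (k : ℕ) (f g : List ℕ → List ℕ)
    (h1 : ∀ l ∈ X, f (l.take k) ∈ A) (h2 : ∀ l ∈ X, l.drop k ∈ B)
    (h3 : ∀ l ∈ X, g (f (l.take k)) = l.take k) : X.card ≤ A.card * B.card := by
  rw [← card_product]
  apply card_le_card_of_injOn (fun l => (f (l.take k), l.drop k))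
  · intro l hl
    exact mem_coe.2 (mem_product.2 ⟨h1 l hl, h2 l hl⟩)
  · intro l hl m hm hlm
    simp only [Prod.mk.injEq] at hlm
    rw [← List.take_append_drop k l, ← List.take_append_drop k m, hlm.2, ← h3 l hl, hlm.1,
      h3 m hm]

lemma getElem_anti {l : List ℕ} (hs : l.Pairwise (· ≥ ·)) {i j : ℕ} (hij : i ≤ j)
    (hj : j < l.length) : l[j] ≤ l[i] :=
  (List.sortedGE_iff_antitone_get.1 (List.sortedGE_iff_pairwise.2 hs))
      (show (⟨i, by omega⟩ : Fin l.length) ≤ ⟨j, hj⟩ from Fin.le_def.2 hij)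

lemma pairwise_take {l : List ℕ} (hs : l.Pairwise (· ≥ ·)) (k : ℕ) :
    (l.take k).Pairwise (· ≥ ·) := hs.sublist (List.take_sublist k l)

lemma pairwise_drop {l : List ℕ} (hs : l.Pairwise (· ≥ ·)) (k : ℕ) :
    (l.drop k).Pairwise (· ≥ ·) := hs.sublist (List.drop_sublist k l)

variable {q k0 k1 n : ℕ}

lemma card_X1 (hq : q + 2 ≤ n) :
    (((S n).filter (fun l => ¬ ∀ i (_ : i < l.length), i < 2 → l.length ≤ l[i] + 1 + q)).card : ℝ)
      ≤ (n + 1) * (2 ^ (n - 1) * 2 ^ (n - q - 2)) := by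
  have h := card_split ((range (n + 1)).image (fun x => [x])) (Lst (n - 1) (n - q - 2))
    ((S n).filter (fun l => ¬ ∀ i (_ : i < l.length), i < 2 → l.length ≤ l[i] + 1 + q)) 1 id id
    ?_ ?_ (fun _ _ => rfl)
  · have h1 : (((range (n + 1)).image (fun x => [x])).card : ℝ) ≤ n + 1 := by
      have := card_image_le (s := range (n + 1)) (f := fun x => [x])
      rw [card_range] at this
      exact_mod_cast this
    have h2 := card_Lst_le (u := 2) (v := 2) (by norm_num) (by norm_num) (by norm_num)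
      (n - 1) (n - q - 2)
    calc _ ≤ (((range (n + 1)).image (fun x => [x])).card : ℝ) * (Lst (n - 1) (n - q - 2)).card :=
          by exact_mod_cast h
      _ ≤ _ := by
          apply mul_le_mul h1 h2 (Nat.cast_nonneg _)
          positivity
  · intro l hl
    rw [mem_filter, mem_S] at hl
    obtain ⟨⟨h1, h2, h3⟩, h4⟩ := hl
    rw [mem_image]
    cases l with
    | nil => simp at h1; omega
    | cons y m =>
      refine ⟨y, ?_, by simp⟩
      rw [mem_range]
      have := h3.lt y (List.mem_cons_self ..)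
      omega
  · intro l hl
    rw [mem_filter, mem_S] at hl
    obtain ⟨⟨h1, h2, h3⟩, h4⟩ := hl
    push Not at h4
    obtain ⟨i, hi, hi2, h5⟩ := h4
    rw [mem_Lst]
    refine ⟨by rw [List.length_drop, h1], pairwise_drop h2 1, ?_⟩
    intro x hx
    obtain ⟨j, hj, hj1, rfl⟩ := mem_drop_getElem hx
    have := getElem_anti h2 (show i ≤ j by omega) hj
    omega

lemma card_X2 (hq : 2 * q + 1 ≤ n) (hk : k0 + 1 ≤ n) :
    (((S n).filter (fun l => ¬ ∀ i (_ : i < l.length), k0 ≤ i →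
      l[i] + 2 * q + 2 ≤ l.length)).card : ℝ)
      ≤ ((9 / 8) ^ (k0 + 1) * 9 ^ (2 * q + 1)) * (2 ^ (n - (k0 + 1)) * 2 ^ n) := by
  have key : ∀ l ∈ (S n).filter (fun l => ¬ ∀ i (_ : i < l.length), k0 ≤ i →
      l[i] + 2 * q + 2 ≤ l.length), ∀ x ∈ l.take (k0 + 1), n - (2 * q + 1) ≤ x := by
    intro l hl x hx
    rw [mem_filter, mem_S] at hl
    obtain ⟨⟨h1, h2, h3⟩, h4⟩ := hl
    push Not at h4
    obtain ⟨i, hi, hi2, h5⟩ := h4
    obtain ⟨j, hj, hj1, rfl⟩ := mem_take_getElem hx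
    have := getElem_anti h2 (show j ≤ i by omega) hi
    omega
  have h := card_split (Lst (k0 + 1) (2 * q + 1)) (Lst (n - (k0 + 1)) n)
    ((S n).filter (fun l => ¬ ∀ i (_ : i < l.length), k0 ≤ i → l[i] + 2 * q + 2 ≤ l.length))
    (k0 + 1) (List.map (fun x => x - (n - (2 * q + 1))))
    (List.map (fun x => x + (n - (2 * q + 1)))) ?_ ?_ ?_
  · have h1 := card_Lst_le (u := 9 / 8) (v := 9) (by norm_num) (by norm_num) (by norm_num)
      (k0 + 1) (2 * q + 1)
    have h2 := card_Lst_le (u := 2) (v := 2) (by norm_num) (by norm_num) (by norm_num)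
      (n - (k0 + 1)) n
    calc _ ≤ ((Lst (k0 + 1) (2 * q + 1)).card : ℝ) * (Lst (n - (k0 + 1)) n).card :=
          by exact_mod_cast h
      _ ≤ _ := by
          apply mul_le_mul h1 h2 (Nat.cast_nonneg _)
          positivity
  · intro l hl
    have hkey := key l hl
    rw [mem_filter, mem_S] at hl
    obtain ⟨⟨h1, h2, h3⟩, h4⟩ := hl
    rw [mem_Lst]
    refine ⟨by rw [List.length_map, List.length_take]; omega, ?_, ?_⟩
    · rw [List.pairwise_map]
      exact (pairwise_take h2 (k0 + 1)).imp (fun {a b} h => by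
        have : b ≤ a := h
        show b - _ ≤ a - _
        omega)
    · intro x hx
      rw [List.mem_map] at hx
      obtain ⟨y, hy, rfl⟩ := hx
      have := h3.lt y (List.mem_of_mem_take hy)
      omega
  · intro l hl
    rw [mem_filter, mem_S] at hl
    obtain ⟨⟨h1, h2, h3⟩, h4⟩ := hl
    rw [mem_Lst]
    refine ⟨by rw [List.length_drop, h1], pairwise_drop h2 _, ?_⟩
    intro x hx
    have := h3.lt x (List.mem_of_mem_drop hx)
    omega
  · intro l hl
    have hkey := key l hl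
    rw [List.map_map]
    conv_rhs => rw [← List.map_id (l.take (k0 + 1))]
    apply List.map_congr_left
    intro x hx
    have := hkey x hx
    simp only [Function.comp, id]
    omega

lemma card_X3 (hk : k1 ≤ n) :
    (((S n).filter (fun l => ¬ ∀ i (_ : i < l.length), i < k1 →
      l.length + 1 ≤ 2 * l[i])).card : ℝ)
      ≤ (9 ^ k1 * (9 / 8) ^ n) * (2 ^ (n - k1) * 2 ^ (n / 2)) := by
  have h := card_split (Lst k1 n) (Lst (n - k1) (n / 2))
    ((S n).filter (fun l => ¬ ∀ i (_ : i < l.length), i < k1 → l.length + 1 ≤ 2 * l[i]))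
    k1 id id ?_ ?_ (fun _ _ => rfl)
  · have h1 := card_Lst_le (u := 9) (v := 9 / 8) (by norm_num) (by norm_num) (by norm_num)
      k1 n
    have h2 := card_Lst_le (u := 2) (v := 2) (by norm_num) (by norm_num) (by norm_num)
      (n - k1) (n / 2)
    calc _ ≤ ((Lst k1 n).card : ℝ) * (Lst (n - k1) (n / 2)).card :=
          by exact_mod_cast h
      _ ≤ _ := by
          apply mul_le_mul h1 h2 (Nat.cast_nonneg _)
          positivity
  · intro l hl
    rw [mem_filter, mem_S] at hl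
    obtain ⟨⟨h1, h2, h3⟩, h4⟩ := hl
    rw [mem_Lst]
    refine ⟨by rw [id, List.length_take]; omega, pairwise_take h2 _, ?_⟩
    intro x hx
    have := h3.lt x (List.mem_of_mem_take hx)
    omega
  · intro l hl
    rw [mem_filter, mem_S] at hl
    obtain ⟨⟨h1, h2, h3⟩, h4⟩ := hl
    push Not at h4
    obtain ⟨i, hi, hi2, h5⟩ := h4
    rw [mem_Lst]
    refine ⟨by rw [List.length_drop, h1], pairwise_drop h2 _, ?_⟩
    intro x hx
    obtain ⟨j, hj, hj1, rfl⟩ := mem_drop_getElem hx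
    have := getElem_anti h2 (show i ≤ j by omega) hj
    omega

theorem card_S_le (h1 : q + 2 ≤ n) (h2 : 2 * q + 1 ≤ n) (h3 : k0 + 1 ≤ n) (h4 : k1 ≤ n) :
    ((S n).card : ℝ) ≤ (T q k0 k1 n).card + (n + 1) * (2 ^ (n - 1) * 2 ^ (n - q - 2)) +
      ((9 / 8) ^ (k0 + 1) * 9 ^ (2 * q + 1)) * (2 ^ (n - (k0 + 1)) * 2 ^ n) +
      (9 ^ k1 * (9 / 8) ^ n) * (2 ^ (n - k1) * 2 ^ (n / 2)) := by
  have hsub : S n ⊆ T q k0 k1 n ∪
      ((S n).filter (fun l => ¬ ∀ i (_ : i < l.length), i < 2 → l.length ≤ l[i] + 1 + q)) ∪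
      ((S n).filter (fun l => ¬ ∀ i (_ : i < l.length), k0 ≤ i → l[i] + 2 * q + 2 ≤ l.length)) ∪
      ((S n).filter (fun l => ¬ ∀ i (_ : i < l.length), i < k1 → l.length + 1 ≤ 2 * l[i])) := by
    intro l hl
    simp only [mem_union, mem_filter, T, Typ]
    tauto
  have hc : (S n).card ≤ (T q k0 k1 n).card +
      ((S n).filter (fun l => ¬ ∀ i (_ : i < l.length), i < 2 → l.length ≤ l[i] + 1 + q)).card +
      ((S n).filter (fun l => ¬ ∀ i (_ : i < l.length), k0 ≤ i →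
        l[i] + 2 * q + 2 ≤ l.length)).card +
      ((S n).filter (fun l => ¬ ∀ i (_ : i < l.length), i < k1 →
        l.length + 1 ≤ 2 * l[i])).card := by
    refine (card_le_card hsub).trans ?_
    refine (card_union_le _ _).trans ?_
    refine Nat.add_le_add_right ?_ _
    refine (card_union_le _ _).trans ?_
    refine Nat.add_le_add_right ?_ _
    exact card_union_le _ _
  have hc' : ((S n).card : ℝ) ≤ (T q k0 k1 n).card +
      ((S n).filter (fun l => ¬ ∀ i (_ : i < l.length), i < 2 → l.length ≤ l[i] + 1 + q)).card +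
      ((S n).filter (fun l => ¬ ∀ i (_ : i < l.length), k0 ≤ i →
        l[i] + 2 * q + 2 ≤ l.length)).card +
      ((S n).filter (fun l => ¬ ∀ i (_ : i < l.length), i < k1 →
        l.length + 1 ≤ 2 * l[i])).card := by
    exact_mod_cast hc
  have e1 := card_X1 h1
  have e2 := card_X2 h2 h3
  have e3 := card_X3 h4
  linarith

/-- The explicit exceptional bound. -/
theorem except {t n : ℕ} (ht : 1 ≤ t) (hn : 128 * t ≤ n) :
    ((S n).card : ℝ) ≤ (T t (12 * t) (14 * t) n).card + (n + 8) * 4 ^ n / 2 ^ t := by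
  have h0 := card_S_le (q := t) (k0 := 12 * t) (k1 := 14 * t) (n := n) (by omega) (by omega)
    (by omega) (by omega)
  have h4 : (4 : ℝ) ^ n = 2 ^ n * 2 ^ n := by
    rw [← mul_pow]
    norm_num
  have e1 : ((n : ℝ) + 1) * (2 ^ (n - 1) * 2 ^ (n - t - 2)) ≤ (n + 1) * 4 ^ n / 2 ^ t := by
    rw [mul_div_assoc]
    apply mul_le_mul_of_nonneg_left _ (by positivity)
    rw [le_div_iff₀ (by positivity), h4, mul_assoc]
    have h1 : (2 : ℝ) ^ (n - 1) ≤ 2 ^ n := pow_le_pow_right₀ (by norm_num) (by omega)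
    have h2 : (2 : ℝ) ^ (n - t - 2) * 2 ^ t ≤ 2 ^ n := by
      rw [← pow_add]
      exact pow_le_pow_right₀ (by norm_num) (by omega)
    exact mul_le_mul h1 h2 (by positivity) (by positivity)
  have e2 : ((9 / 8 : ℝ) ^ (12 * t + 1) * 9 ^ (2 * t + 1)) * (2 ^ (n - (12 * t + 1)) * 2 ^ n) ≤
      6 * 4 ^ n / 2 ^ t := by
    rw [le_div_iff₀ (by positivity), h4]
    have h1 : (2 : ℝ) ^ (n - (12 * t + 1)) = 2 ^ n / 2 ^ (12 * t + 1) := by
      rw [eq_div_iff (by positivity), ← pow_add]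
      congr 1
      omega
    rw [h1]
    have h2 : ((9 / 8 : ℝ) ^ (12 * t + 1) * 9 ^ (2 * t + 1)) * (2 ^ n / 2 ^ (12 * t + 1) * 2 ^ n) *
        2 ^ t = (81 / 16) * ((9 / 8) ^ 12 * 9 ^ 2 / 2 ^ 12 * 2) ^ t * (2 ^ n * 2 ^ n) := by
      have gen : ∀ (A B C X : ℝ), C ≠ 0 → A ^ t * (9 / 8) * (B ^ t * 9) *
          (X / (C ^ t * 2) * X) * 2 ^ t = (81 / 16) * (A * B / C * 2) ^ t * (X * X) := by
        intro A B C X hC
        rw [mul_pow, div_pow, mul_pow]
        field_simp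
        ring
      rw [pow_succ, pow_succ, pow_succ, pow_mul, pow_mul, pow_mul]
      exact gen _ _ _ _ (by positivity)
    rw [h2]
    have h3 : ((9 / 8 : ℝ) ^ 12 * 9 ^ 2 / 2 ^ 12 * 2) ^ t ≤ 1 := by
      apply pow_le_one₀
      · positivity
      · norm_num
    have h5 : (0 : ℝ) < 2 ^ n * 2 ^ n := by positivity
    have h6 : (81 / 16 : ℝ) * ((9 / 8) ^ 12 * 9 ^ 2 / 2 ^ 12 * 2) ^ t ≤ 6 := by
      linarith
    exact mul_le_mul_of_nonneg_right h6 h5.le
  have e3 : ((9 : ℝ) ^ (14 * t) * (9 / 8) ^ n) * (2 ^ (n - 14 * t) * 2 ^ (n / 2)) ≤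
      4 ^ n / 2 ^ t := by
    rw [le_div_iff₀ (by positivity), h4]
    have h1 : (2 : ℝ) ^ (n - 14 * t) = 2 ^ n / 2 ^ (14 * t) := by
      rw [eq_div_iff (by positivity), ← pow_add]
      congr 1
      omega
    rw [h1]
    -- `(9/8)^n 2^(n/2) ≤ 2^n * (81/128)^(n/2)`
    have h2 : (9 / 8 : ℝ) ^ n * 2 ^ (n / 2) ≤ 2 ^ n * (81 / 128) ^ (n / 2) := by
      rcases Nat.even_or_odd' n with ⟨m, hm | hm⟩
      · have hm2 : n / 2 = m := by omega
        rw [hm2, hm, pow_mul, pow_mul, ← mul_pow, ← mul_pow]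
        apply le_of_eq
        congr 1
        norm_num
      · have hm2 : n / 2 = m := by omega
        rw [hm2, hm, pow_succ, pow_succ, pow_mul, pow_mul]
        have e : ((9 / 8 : ℝ) ^ 2) ^ m * (9 / 8) * 2 ^ m = ((81 / 32 : ℝ) ^ m) * (9 / 8) := by
          have : (81 / 32 : ℝ) ^ m = ((9 / 8 : ℝ) ^ 2) ^ m * 2 ^ m := by
            rw [← mul_pow]
            norm_num
          rw [this]
          ring
        have e' : ((2 : ℝ) ^ 2) ^ m * 2 * (81 / 128) ^ m = ((81 / 32 : ℝ) ^ m) * 2 := by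
          have : (81 / 32 : ℝ) ^ m = ((2 : ℝ) ^ 2) ^ m * (81 / 128) ^ m := by
            rw [← mul_pow]
            norm_num
          rw [this]
          ring
        rw [e, e']
        apply mul_le_mul_of_nonneg_left (by norm_num) (by positivity)
    have h3 : (81 / 128 : ℝ) ^ (n / 2) ≤ (81 / 128) ^ (64 * t) :=
      pow_le_pow_of_le_one (by norm_num) (by norm_num) (by omega)
    have h5 : ((9 : ℝ) ^ (14 * t) * (9 / 8) ^ n) * (2 ^ n / 2 ^ (14 * t) * 2 ^ (n / 2)) * 2 ^ t =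
        (9 ^ (14 * t) / 2 ^ (14 * t) * 2 ^ t) * (2 ^ n * ((9 / 8) ^ n * 2 ^ (n / 2))) := by
      ring
    rw [h5]
    have h6 : (9 / 8 : ℝ) ^ n * 2 ^ (n / 2) ≤ 2 ^ n * (81 / 128) ^ (64 * t) :=
      h2.trans (mul_le_mul_of_nonneg_left h3 (by positivity))
    have h7 : (9 ^ (14 * t) / 2 ^ (14 * t) * 2 ^ t) * (2 ^ n * ((9 / 8 : ℝ) ^ n * 2 ^ (n / 2))) ≤
        (9 ^ (14 * t) / 2 ^ (14 * t) * 2 ^ t) * (2 ^ n * (2 ^ n * (81 / 128) ^ (64 * t))) := by
      apply mul_le_mul_of_nonneg_left _ (by positivity)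
      exact mul_le_mul_of_nonneg_left h6 (by positivity)
    refine h7.trans ?_
    have h8 : ((9 : ℝ) ^ (14 * t) / 2 ^ (14 * t) * 2 ^ t) * (2 ^ n * (2 ^ n *
        (81 / 128) ^ (64 * t))) =
        ((9 ^ 14 / 2 ^ 14 * 2) * (81 / 128) ^ 64) ^ t * (2 ^ n * 2 ^ n) := by
      have gen : ∀ (A C D X : ℝ), (A ^ t / C ^ t * 2 ^ t) * (X * (X * D ^ t)) =
          ((A / C * 2) * D) ^ t * (X * X) := by
        intro A C D X
        rw [mul_pow, mul_pow, div_pow]
        ring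
      rw [pow_mul, pow_mul, pow_mul]
      exact gen _ _ _ _
    rw [h8]
    have h9 : (((9 : ℝ) ^ 14 / 2 ^ 14 * 2) * (81 / 128) ^ 64) ^ t ≤ 1 := by
      apply pow_le_one₀
      · positivity
      · norm_num
    exact mul_le_of_le_one_left (by positivity) h9
  have e4 : ((n : ℝ) + 8) * 4 ^ n / 2 ^ t = (n + 1) * 4 ^ n / 2 ^ t + 6 * 4 ^ n / 2 ^ t +
      4 ^ n / 2 ^ t := by ring
  rw [e4]
  linarith

end Pool.Agent.Lib.MP_4eff47_co
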