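import Pool.Agent.Lib.MP_4eff47_co.Growth

/-!
# Exponential growth rate four
-/

namespace Pool.Agent.Lib.MP_4eff47_co

open Finset Filter Topology
open scoped Classical

set_option linter.unusedSectionVars false

lemma exists_pow_lt {K : ℝ} (hK : 1 < K) (L : ℕ) : ∃ c : ℝ, 1 < c ∧ c ^ L < K := by
  have h1 : ∀ᶠ c in 𝓝[>] (1 : ℝ), c ^ L < K := by
    have h2 : Tendsto (fun c : ℝ => c ^ L) (𝓝 1) (𝓝 1) :=
      (continuous_pow L).tendsto' 1 1 (one_pow _)
    exact (h2.eventually_lt_const hK).filter_mono nhdsWithin_le_nhds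
  obtain ⟨c, h2, h3⟩ := (h1.and self_mem_nhdsWithin).exists
  exact ⟨c, h3, h2⟩

lemma multichoose_lower (N : ℕ) (hN : 0 < N) :
    4 ^ N ≤ 2 * (N + 1) * Nat.multichoose N (N + 1) := by
  have h1 := Nat.four_pow_le_two_mul_self_mul_centralBinom N hN
  rw [Nat.multichoose_eq]
  have h2 : N + (N + 1) - 1 = 2 * N := by omega
  rw [h2]
  have h3 := Nat.choose_succ_right_eq (2 * N) N
  have h4 : 2 * N - N = N := by omega
  rw [h4] at h3
  have h5 : 2 * N * N.centralBinom = 2 * (N + 1) * (2 * N).choose (N + 1) := by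
    unfold Nat.centralBinom
    calc 2 * N * (2 * N).choose N = 2 * ((2 * N).choose N * N) := by ring
      _ = 2 * ((2 * N).choose (N + 1) * (N + 1)) := by rw [h3]
      _ = _ := by ring
  rw [← h5]
  exact h1

lemma eventually_poly_le {d : ℝ} (hd : 1 < d) (k : ℕ) (C : ℝ) (hC : 0 < C) :
    ∀ᶠ n : ℕ in atTop, C * (n : ℝ) ^ k ≤ d ^ n := by
  have h1 := tendsto_pow_const_div_const_pow_of_one_lt k hd
  have h2 : ∀ᶠ n : ℕ in atTop, (n : ℝ) ^ k / d ^ n < 1 / C :=
    h1.eventually_lt_const (by positivity)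
  filter_upwards [h2] with n hn
  have hpos : 0 < d ^ n := pow_pos (by linarith) n
  rw [div_lt_div_iff₀ hpos hC] at hn
  linarith

/-- The number of forcibly biconnected sequences grows at least like `(4 - o(1)) ^ n`. -/
theorem growth {c : ℝ} (hc : 1 < c) :
    ∀ᶠ n : ℕ in atTop, (4 : ℝ) ^ n ≤ c ^ n * (S n).card := by
  -- a square root of `c`
  obtain ⟨d, hd, hdc⟩ := exists_pow_lt hc 2
  -- the block size
  obtain ⟨N, hN, hMd⟩ : ∃ N : ℕ, 0 < N ∧ 8 * ((N + 1 : ℕ) : ℝ) ≤ d ^ (N + 1) := by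
    have h1 := eventually_poly_le hd 1 8 (by norm_num)
    have h2 := (tendsto_add_atTop_nat 1).eventually h1
    obtain ⟨N, h3, h4⟩ := (h2.and (eventually_ge_atTop 1)).exists
    exact ⟨N, by omega, by simpa using h3⟩
  set M := N + 1 with hM
  have h1 := eventually_poly_le hd N (4 ^ (2 * N + 2)) (by positivity)
  filter_upwards [h1, eventually_ge_atTop (N + 2)] with n hn hn2
  set B := (n - N - 2) / M with hB
  set R := n - N - B * M with hR
  have hMpos : 0 < M := by omega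
  have hBM : B * M ≤ n - N - 2 := Nat.div_mul_le_self _ _
  have hBM2 : n - N - 2 < B * M + M := by
    have := Nat.lt_div_mul_add hMpos (a := n - N - 2)
    omega
  have hR2 : 2 ≤ R := by omega
  have hnn : B * M + (N + R) = n := by omega
  have hNR : N + R ≤ 2 * N + 2 := by omega
  have h2 := count_ineq (B := B) (M := M) (N := N) (R := R) hM hR2
  rw [hnn] at h2
  have h3 := multichoose_lower N hN
  have h2' : ((Nat.multichoose N M : ℕ) : ℝ) ^ B ≤ (S n).card * (n : ℝ) ^ N := by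
    exact_mod_cast h2
  have h3' : (4 : ℝ) ^ N ≤ 2 * M * (Nat.multichoose N M : ℕ) := by
    exact_mod_cast h3
  -- combine
  have h4 : (4 : ℝ) ^ M ≤ 8 * M * (Nat.multichoose N M : ℕ) := by
    rw [hM, pow_succ]
    rw [hM] at h3'
    push_cast at h3' ⊢
    linarith
  have h5 : (4 : ℝ) ^ (B * M) ≤ (8 * M) ^ B * ((S n).card * (n : ℝ) ^ N) := by
    calc (4 : ℝ) ^ (B * M) = (4 ^ M) ^ B := by rw [mul_comm, pow_mul]
      _ ≤ (8 * M * (Nat.multichoose N M : ℕ)) ^ B := pow_le_pow_left₀ (by positivity) h4 B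
      _ = (8 * M) ^ B * ((Nat.multichoose N M : ℕ) : ℝ) ^ B := mul_pow _ _ _
      _ ≤ _ := mul_le_mul_of_nonneg_left h2' (by positivity)
  have h6 : (8 * (M : ℝ)) ^ B ≤ d ^ n := by
    calc (8 * (M : ℝ)) ^ B ≤ (d ^ M) ^ B := pow_le_pow_left₀ (by positivity) hMd B
      _ = d ^ (M * B) := (pow_mul _ _ _).symm
      _ ≤ d ^ n := pow_le_pow_right₀ hd.le (by rw [mul_comm]; omega)
  have h7 : (4 : ℝ) ^ (N + R) ≤ 4 ^ (2 * N + 2) := pow_le_pow_right₀ (by norm_num) hNR
  have hcpos : (0 : ℝ) ≤ (S n).card := Nat.cast_nonneg _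
  have hdpos : 0 < d ^ n := pow_pos (by linarith) n
  calc (4 : ℝ) ^ n = 4 ^ (B * M) * 4 ^ (N + R) := by rw [← pow_add, hnn]
    _ ≤ ((8 * M) ^ B * ((S n).card * (n : ℝ) ^ N)) * 4 ^ (2 * N + 2) :=
        mul_le_mul h5 h7 (by positivity) (by positivity)
    _ = (8 * (M : ℝ)) ^ B * (S n).card * (4 ^ (2 * N + 2) * (n : ℝ) ^ N) := by ring
    _ ≤ d ^ n * (S n).card * d ^ n := by
        apply mul_le_mul _ hn (by positivity) (by positivity)
        exact mul_le_mul_of_nonneg_right h6 hcpos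
    _ = (d ^ 2) ^ n * (S n).card := by
        rw [← pow_mul, mul_comm 2 n, pow_mul]
        ring
    _ ≤ c ^ n * (S n).card := by
        apply mul_le_mul_of_nonneg_right _ hcpos
        exact pow_le_pow_left₀ (by positivity) hdc.le n

theorem upper (n : ℕ) : ((S n).card : ℝ) ≤ 4 ^ n := by
  have h1 := card_Lst_le (u := 2) (v := 2) (by norm_num) (by norm_num) (by norm_num) n n
  have h2 : ((S n).card : ℝ) ≤ (Lst n n).card := by
    exact_mod_cast card_le_card (filter_subset _ _)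
  have h3 : (2 : ℝ) ^ n * 2 ^ n = 4 ^ n := by
    rw [← mul_pow]
    norm_num
  linarith

end Pool.Agent.Lib.MP_4eff47_co
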