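import Pool.Agent.Lib.MP_4eff47_co.Except
import Pool.Agent.Lib.MP_4eff47_co.Growth2
import Pool.Agent.Lib.MP_4eff47_co.Analysis

/-!
# The ratio of consecutive numbers tends to four
-/

namespace Pool.Agent.Lib.MP_4eff47_co

open Finset Filter Topology
open scoped Classical

lemma algebra_step {A P Q τ κ n : ℝ} (hA : 0 < A) (hP : 0 < P) (hκ : 0 < κ)
    (hn : 2 ≤ n) (h1 : A * (1 - 1 / n) ≤ τ) (h2 : τ ≤ A) (h3 : τ ≤ P)
    (h4 : τ ^ 2 ≤ P * (Q + τ / κ)) (h5 : n ≤ 128 * κ) : A / P ≤ Q / A + 132 / n := by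
  have hn0 : 0 < n := by linarith
  have hinv : 1 / n ≤ 1 / 2 := by
    rw [div_le_div_iff₀ hn0 (by norm_num)]
    linarith
  have hinv0 : 0 < 1 / n := by positivity
  have h6 : A ≤ 2 * P := by nlinarith
  have h7 : (A * (1 - 1 / n)) ^ 2 ≤ τ ^ 2 := by
    apply pow_le_pow_left₀ _ h1
    apply mul_nonneg hA.le
    linarith
  have h8 : A ^ 2 * (1 - 2 / n) ≤ (A * (1 - 1 / n)) ^ 2 := by
    have : (A * (1 - 1 / n)) ^ 2 = A ^ 2 * (1 - 2 / n) + A ^ 2 * (1 / n) ^ 2 := by ring
    rw [this]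
    have : 0 ≤ A ^ 2 * (1 / n) ^ 2 := by positivity
    linarith
  have h9 : P * (Q + τ / κ) ≤ P * (Q + A / κ) := by
    apply mul_le_mul_of_nonneg_left _ hP.le
    have : τ / κ ≤ A / κ := div_le_div_of_nonneg_right h2 hκ.le
    linarith
  have h10 : A ^ 2 * (1 - 2 / n) ≤ P * (Q + A / κ) := by linarith
  have h11 : A / P * (1 - 2 / n) ≤ Q / A + 1 / κ := by
    have e1 : A / P * (1 - 2 / n) = (A ^ 2 * (1 - 2 / n)) / (A * P) := by
      field_simp
    have e2 : Q / A + 1 / κ = (P * (Q + A / κ)) / (A * P) := by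
      field_simp
    rw [e1, e2]
    exact div_le_div_of_nonneg_right h10 (by positivity)
  have h12 : 1 / κ ≤ 128 / n := by
    rw [div_le_div_iff₀ hκ hn0]
    linarith
  have h13 : A / P ≤ 2 := by
    rw [div_le_iff₀ hP]
    linarith
  have h14 : A / P * (2 / n) ≤ 2 * (2 / n) := mul_le_mul_of_nonneg_right h13 (by positivity)
  have h15 : A / P = A / P * (1 - 2 / n) + A / P * (2 / n) := by ring
  have h16 : 132 / n = 128 / n + 2 * (2 / n) := by ring
  rw [h15, h16]
  linarith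

theorem step : ∀ᶠ n : ℕ in atTop,
    ((S (n + 1)).card : ℝ) / (S (n + 2)).card ≤ (S n).card / (S (n + 1)).card + 132 / n := by
  obtain ⟨c, hc, hc'⟩ := exists_pow_lt (K := 3 / 2) (by norm_num) 128
  have hg := growth hc
  obtain ⟨N1, hN1⟩ := eventually_atTop.1 hg
  obtain ⟨t0, ht0⟩ := eventually_atTop.1
    (eventually_poly_le (d := 4 / 3) (by norm_num) 2 (264 * 264 * (3 / 2)) (by norm_num))
  filter_upwards [eventually_ge_atTop (N1 + 128 * t0 + 256)] with n hn
  set t := (n + 1) / 128 with ht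
  have ht1 : t0 ≤ t := by
    rw [ht, Nat.le_div_iff_mul_le (by norm_num)]
    omega
  have ht2 : 1 ≤ t := by
    rw [ht, Nat.le_div_iff_mul_le (by norm_num)]
    omega
  have ht3 : 128 * t ≤ n + 1 := by
    have := Nat.div_mul_le_self (n + 1) 128
    omega
  have ht4 : n + 1 < 128 * (t + 1) := by
    have := Nat.lt_div_mul_add (show 0 < 128 by norm_num) (a := n + 1)
    omega
  have hE := except (t := t) (n := n + 1) ht2 ht3
  have hD := double_count (q := t) (k0 := 12 * t) (k1 := 14 * t) (n := n) (by omega) (by omega)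
    (by omega) (by omega) (κ := 2 * t) (by omega) (by omega)
  have hT := card_T_le (q := t) (k0 := 12 * t) (k1 := 14 * t) (n := n + 1) (by omega) (by omega)
    (by omega) (by omega) (by omega)
  have hTS : (T t (12 * t) (14 * t) (n + 1)).card ≤ (S (n + 1)).card :=
    card_le_card (filter_subset _ _)
  have hpos : ∀ m, N1 ≤ m → (0 : ℝ) < (S m).card := by
    intro m hm
    have h1 := hN1 m hm
    have h2 : (0 : ℝ) < 4 ^ m := by positivity
    by_contra h3
    push Not at h3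
    have h4 : c ^ m * ((S m).card : ℝ) ≤ 0 :=
      mul_nonpos_of_nonneg_of_nonpos (pow_nonneg (by linarith) m) h3
    linarith
  have hA := hpos (n + 1) (by omega)
  have hP := hpos (n + 2) (by omega)
  have hnpos : (0 : ℝ) < n := by
    have : 0 < n := by omega
    exact_mod_cast this
  have hn2 : (2 : ℝ) ≤ n := by
    have : 2 ≤ n := by omega
    exact_mod_cast this
  have htR : (1 : ℝ) ≤ t := by exact_mod_cast ht2
  -- the exceptional set is small
  have hsmall : (((n + 1 : ℕ) : ℝ) + 8) * 4 ^ (n + 1) / 2 ^ t ≤ (S (n + 1)).card * (1 / n) := by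
    have h1 := hN1 (n + 1) (by omega)
    have h2 : c ^ (n + 1) ≤ (3 / 2) ^ (t + 1) := by
      calc c ^ (n + 1) ≤ c ^ (128 * (t + 1)) := pow_le_pow_right₀ hc.le ht4.le
        _ = (c ^ 128) ^ (t + 1) := pow_mul _ _ _
        _ ≤ _ := pow_le_pow_left₀ (pow_nonneg (by linarith) _) hc'.le _
    have h3 : (4 : ℝ) ^ (n + 1) ≤ (3 / 2) ^ (t + 1) * (S (n + 1)).card :=
      h1.trans (mul_le_mul_of_nonneg_right h2 hA.le)
    have h4 : (((n + 1 : ℕ) : ℝ) + 8) ≤ 264 * t := by
      have : n + 1 + 8 ≤ 264 * t := by omega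
      exact_mod_cast this
    have h5 : (n : ℝ) ≤ 264 * t := by
      have : n ≤ 264 * t := by omega
      exact_mod_cast this
    have h6 := ht0 t ht1
    rw [mul_one_div, div_le_div_iff₀ (by positivity) hnpos]
    have h7 : (3 / 2 : ℝ) ^ (t + 1) = (3 / 2) * (3 / 2) ^ t := by
      rw [pow_succ]
      ring
    have h8 : (4 / 3 : ℝ) ^ t * (3 / 2) ^ t = 2 ^ t := by
      rw [← mul_pow]
      norm_num
    calc (((n + 1 : ℕ) : ℝ) + 8) * 4 ^ (n + 1) * n ≤
          (264 * t) * ((3 / 2) ^ (t + 1) * (S (n + 1)).card) * (264 * t) := by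
          apply mul_le_mul _ h5 hnpos.le (by positivity)
          exact mul_le_mul h4 h3 (by positivity) (by positivity)
      _ = (S (n + 1)).card * ((264 * 264 * (3 / 2) * (t : ℝ) ^ 2) * (3 / 2) ^ t) := by
          rw [h7]
          ring
      _ ≤ (S (n + 1)).card * ((4 / 3) ^ t * (3 / 2) ^ t) := by
          apply mul_le_mul_of_nonneg_left _ hA.le
          exact mul_le_mul_of_nonneg_right h6 (by positivity)
      _ = (S (n + 1)).card * 2 ^ t := by rw [h8]
  have hκ : (0 : ℝ) < ((2 * t : ℕ) : ℝ) := by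
    have : 0 < 2 * t := by omega
    exact_mod_cast this
  refine algebra_step (τ := (T t (12 * t) (14 * t) (n + 1)).card) (κ := ((2 * t : ℕ) : ℝ)) hA hP
    hκ hn2 ?_ ?_ ?_ hD ?_
  · have : ((S (n + 1)).card : ℝ) * (1 - 1 / n) =
        (S (n + 1)).card - (S (n + 1)).card * (1 / n) := by ring
    rw [this]
    linarith
  · exact_mod_cast hTS
  · exact_mod_cast hT
  · have : n ≤ 128 * (2 * t) := by omega
    exact_mod_cast this

theorem S_ratio : Tendsto (fun n : ℕ => ((S (n + 1)).card : ℝ) / (S n).card) atTop (𝓝 4) :=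
  ratio_limit (fun n => ((S n).card : ℝ)) upper (fun _ hc => growth hc) 132 (by norm_num) step

theorem D2f_ratio :
    Tendsto (fun n : ℕ => (D2f n : ℝ) / (D2f (n - 1) : ℝ)) atTop (𝓝 4) := by
  rw [← tendsto_add_atTop_iff_nat 1]
  refine S_ratio.congr' ?_
  filter_upwards [eventually_ge_atTop 3] with n hn
  rw [Nat.add_sub_cancel, D2f_eq hn, D2f_eq (by omega : 3 ≤ n + 1)]

end Pool.Agent.Lib.MP_4eff47_co
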