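import Pool.Agent.Lib.MP_4eff47_co.Defs

/-!
# Edge moves, Havel-Hakimi switching that keeps a cut, relocation of the cut vertex
-/

namespace Pool.Agent.Lib.MP_4eff47_co

open Finset
open scoped Classical

set_option linter.unusedSectionVars false

variable {V : Type*} [Fintype V]

/-- Neighbours as a finset. -/
noncomputable def nb (G : SimpleGraph V) (v : V) : Finset V := univ.filter (fun w => G.Adj v w)

/-- Degree. -/
noncomputable def dg (G : SimpleGraph V) (v : V) : ℕ := (nb G v).card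

@[simp] lemma mem_nb {G : SimpleGraph V} {v w : V} : w ∈ nb G v ↔ G.Adj v w := by
  simp [nb]

/-- The set `A` is only joined to the outside through `v`. -/
def IsCut (G : SimpleGraph V) (v : V) (A : Finset V) : Prop :=
  v ∉ A ∧ ∀ a ∈ A, ∀ w, G.Adj a w → w ∈ A ∨ w = v

/-- Replace the edge `z x` by the edge `z y`. -/
def mv (G : SimpleGraph V) (z x y : V) : SimpleGraph V where
  Adj a b := a ≠ b ∧ ((G.Adj a b ∧ ¬ ((a = z ∧ b = x) ∨ (a = x ∧ b = z))) ∨
    (a = z ∧ b = y) ∨ (a = y ∧ b = z))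
  symm := ⟨by
    rintro a b ⟨h1, h2⟩
    refine ⟨h1.symm, ?_⟩
    rcases h2 with ⟨h2, h3⟩ | ⟨h2, h3⟩ | ⟨h2, h3⟩
    · exact Or.inl ⟨h2.symm, by tauto⟩
    · exact Or.inr (Or.inr ⟨h3, h2⟩)
    · exact Or.inr (Or.inl ⟨h3, h2⟩)⟩
  loopless := ⟨fun a h => h.1 rfl⟩

lemma mv_adj {G : SimpleGraph V} {z x y a b : V} : (mv G z x y).Adj a b ↔
    a ≠ b ∧ ((G.Adj a b ∧ ¬ ((a = z ∧ b = x) ∨ (a = x ∧ b = z))) ∨
    (a = z ∧ b = y) ∨ (a = y ∧ b = z)) := Iff.rfl

section mv

variable {G : SimpleGraph V} {z x y : V}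

lemma nb_mv_x (hx : G.Adj z x) (hxy : x ≠ y) : nb (mv G z x y) x = (nb G x).erase z := by
  have hzx := hx.ne
  ext w
  simp only [mem_nb, mv_adj, mem_erase]
  constructor
  · rintro ⟨h1, ⟨h2, h3⟩ | ⟨h2, h3⟩ | ⟨h2, h3⟩⟩
    · exact ⟨fun h => h3 (Or.inr ⟨trivial, h⟩), h2⟩
    · exact absurd h2 hzx.symm
    · exact absurd h2 hxy
  · rintro ⟨h1, h2⟩
    refine ⟨h2.ne, Or.inl ⟨h2, ?_⟩⟩
    rintro (⟨h3, h4⟩ | ⟨h3, h4⟩)
    · exact hzx h3.symm
    · exact h1 h4

lemma nb_mv_y (hx : G.Adj z x) (hzy : z ≠ y) (hxy : x ≠ y) :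
    nb (mv G z x y) y = insert z (nb G y) := by
  ext w
  simp only [mem_nb, mv_adj, mem_insert]
  constructor
  · rintro ⟨h1, ⟨h2, h3⟩ | ⟨h2, h3⟩ | ⟨h2, h3⟩⟩
    · exact Or.inr h2
    · exact absurd h2.symm hzy
    · exact Or.inl h3
  · rintro (h1 | h1)
    · subst h1
      exact ⟨hzy.symm, Or.inr (Or.inr ⟨trivial, rfl⟩)⟩
    · refine ⟨h1.ne, Or.inl ⟨h1, ?_⟩⟩
      rintro (⟨h3, h4⟩ | ⟨h3, h4⟩)
      · exact hzy h3.symm
      · exact hxy h3.symm

lemma nb_mv_z (hx : G.Adj z x) (hzy : z ≠ y) (hxy : x ≠ y) :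
    nb (mv G z x y) z = insert y ((nb G z).erase x) := by
  have hzx := hx.ne
  ext w
  simp only [mem_nb, mv_adj, mem_insert, mem_erase]
  constructor
  · rintro ⟨h1, ⟨h2, h3⟩ | ⟨h2, h3⟩ | ⟨h2, h3⟩⟩
    · exact Or.inr ⟨fun h => h3 (Or.inl ⟨trivial, h⟩), h2⟩
    · exact Or.inl h3
    · exact absurd h2 hzy
  · rintro (h1 | ⟨h1, h2⟩)
    · subst h1
      exact ⟨hzy, Or.inr (Or.inl ⟨trivial, rfl⟩)⟩
    · refine ⟨h2.ne, Or.inl ⟨h2, ?_⟩⟩
      rintro (⟨h3, h4⟩ | ⟨h3, h4⟩)
      · exact h1 h4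
      · exact hzx h3

lemma nb_mv_of_ne {u : V} (hux : u ≠ x) (huy : u ≠ y) (huz : u ≠ z) :
    nb (mv G z x y) u = nb G u := by
  ext w
  simp only [mem_nb, mv_adj]
  constructor
  · rintro ⟨h1, ⟨h2, h3⟩ | ⟨h2, h3⟩ | ⟨h2, h3⟩⟩
    · exact h2
    · exact absurd h2 huz
    · exact absurd h2 huy
  · intro h
    refine ⟨h.ne, Or.inl ⟨h, ?_⟩⟩
    rintro (⟨h3, h4⟩ | ⟨h3, h4⟩)
    · exact huz h3
    · exact hux h3

lemma dg_mv_x (hx : G.Adj z x) (hxy : x ≠ y) : dg (mv G z x y) x + 1 = dg G x := by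
  unfold dg
  rw [nb_mv_x hx hxy]
  exact card_erase_add_one (mem_nb.2 hx.symm)

lemma dg_mv_y (hx : G.Adj z x) (hzy : z ≠ y) (hxy : x ≠ y) (hn : ¬ G.Adj z y) :
    dg (mv G z x y) y = dg G y + 1 := by
  unfold dg
  rw [nb_mv_y hx hzy hxy, card_insert_of_notMem]
  exact fun h => hn (mem_nb.1 h).symm

lemma dg_mv_of_ne {u : V} (hx : G.Adj z x) (hzy : z ≠ y) (hxy : x ≠ y) (hn : ¬ G.Adj z y)
    (hux : u ≠ x) (huy : u ≠ y) : dg (mv G z x y) u = dg G u := by
  by_cases huz : u = z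
  · subst huz
    unfold dg
    rw [nb_mv_z hx hzy hxy, card_insert_of_notMem, card_erase_add_one (mem_nb.2 hx)]
    intro h
    exact hn (mem_nb.1 (mem_of_mem_erase h))
  · unfold dg
    rw [nb_mv_of_ne hux huy huz]

lemma isCut_mv {v : V} {A : Finset V} (h : IsCut G v A) (hz : z ∉ A) (hy : y ∉ A) :
    IsCut (mv G z x y) v A := by
  refine ⟨h.1, ?_⟩
  intro a ha w haw
  rcases haw with ⟨-, ⟨h2, -⟩ | ⟨h2, -⟩ | ⟨h2, -⟩⟩
  · exact h.2 a ha w h2
  · exact absurd (h2 ▸ ha) hz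
  · exact absurd (h2 ▸ ha) hy

end mv

/-- Havel-Hakimi switching at the vertex `o`, keeping the cut `(v, A)`. -/
theorem hh (o v : V) (T A : Finset V) (hoT : o ∉ T) (hoA : o ∉ A) (hvT : v ∈ T)
    (hTA : Disjoint T A) : ∀ (m : ℕ) (G : SimpleGraph V), (T \ nb G o).card = m →
    T.card = dg G o → IsCut G v A →
    (∀ p ∈ T, ∀ q, q ∉ T → q ≠ o → dg G q < dg G p) →
    (∀ q, q ∉ T → q ≠ o → dg G q + A.card < dg G v) →
    ∃ G' : SimpleGraph V, (∀ w, dg G' w = dg G w) ∧ IsCut G' v A ∧ nb G' o = T := by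
  intro m
  induction m with
  | zero =>
    intro G hm hT hcut h1 h2
    refine ⟨G, fun _ => rfl, hcut, ?_⟩
    have h3 : T ⊆ nb G o := by
      rw [← sdiff_eq_empty_iff_subset]
      exact card_eq_zero.1 hm
    exact (eq_of_subset_of_card_le h3 (by rw [hT]; rfl)).symm
  | succ m ih =>
    intro G hm hT hcut h1 h2
    obtain ⟨p, hp⟩ : (T \ nb G o).Nonempty := by
      rw [← card_pos, hm]
      exact Nat.succ_pos m
    rw [mem_sdiff, mem_nb] at hp
    obtain ⟨hpT, hpo⟩ := hp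
    have hcard : (nb G o \ T).card = (T \ nb G o).card := by
      have e1 := card_sdiff_add_card_inter T (nb G o)
      have e2 := card_sdiff_add_card_inter (nb G o) T
      rw [inter_comm] at e2
      have e3 : T.card = (nb G o).card := hT
      omega
    obtain ⟨q, hq⟩ : (nb G o \ T).Nonempty := by
      rw [← card_pos, hcard, hm]
      exact Nat.succ_pos m
    rw [mem_sdiff, mem_nb] at hq
    obtain ⟨hqo, hqT⟩ := hq
    have hqo' : q ≠ o := hqo.ne.symm
    have hpo' : p ≠ o := fun h => hoT (h ▸ hpT)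
    have hpq : p ≠ q := fun h => hqT (h ▸ hpT)
    have hov : o ≠ v := fun h => hoT (h ▸ hvT)
    have hqA : q ∉ A := by
      intro h
      rcases hcut.2 q h o hqo.symm with h3 | h3
      · exact hoA h3
      · exact hov h3
    have hpA : p ∉ A := fun h => (disjoint_left.1 hTA) hpT h
    -- the vertex z
    obtain ⟨z, hz⟩ : (((nb G p \ A).erase q) \ nb G q).Nonempty := by
      by_contra hne
      rw [not_nonempty_iff_eq_empty, sdiff_eq_empty_iff_subset] at hne
      have h3 : (nb G p \ A).erase q ⊆ (nb G q).erase o := by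
        intro w hw
        rw [mem_erase]
        refine ⟨?_, hne hw⟩
        rintro rfl
        rw [mem_erase, mem_sdiff, mem_nb] at hw
        exact hpo hw.2.1.symm
      have h4 := card_le_card h3
      have h5 : ((nb G q).erase o).card + 1 = dg G q := card_erase_add_one (mem_nb.2 hqo.symm)
      have h6 : (nb G p \ A).card ≤ ((nb G p \ A).erase q).card + 1 := by
        have := pred_card_le_card_erase (s := nb G p \ A) (a := q)
        omega
      by_cases hpv : p = v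
      · have h7 := h2 q hqT hqo'
        have h8 : (nb G p).card ≤ (nb G p \ A).card + A.card := by
          have := card_le_card (subset_union_left (s₁ := nb G p) (s₂ := A))
          rw [← sdiff_union_self_eq_union] at this
          exact le_trans this (card_union_le _ _)
        rw [← hpv] at h7
        unfold dg at h7 h5
        omega
      · have h7 := h1 p hpT q hqT hqo'
        have h8 : nb G p \ A = nb G p := by
          rw [Finset.sdiff_eq_self_iff_disjoint, disjoint_left]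
          intro w hw hwA
          rcases hcut.2 w hwA p (mem_nb.1 hw).symm with h9 | h9
          · exact hpA h9
          · exact hpv h9
        rw [h8] at h6 h4
        unfold dg at h7 h5
        omega
    rw [mem_sdiff, mem_erase, mem_sdiff, mem_nb, mem_nb] at hz
    obtain ⟨⟨hzq, hpz, hzA⟩, hqz⟩ := hz
    have hzo : z ≠ o := by
      rintro rfl
      exact hpo hpz.symm
    -- the two moves
    set G1 := mv G o q p with hG1
    set G2 := mv G1 z p q with hG2
    have a1 : G1.Adj z p := by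
      rw [hG1, mv_adj]
      refine ⟨hpz.ne.symm, Or.inl ⟨hpz.symm, ?_⟩⟩
      rintro (⟨h3, -⟩ | ⟨h3, -⟩)
      · exact hzo h3
      · exact hzq h3
    have a2 : ¬ G1.Adj z q := by
      rw [hG1, mv_adj]
      rintro ⟨-, ⟨h3, -⟩ | ⟨h3, -⟩ | ⟨h3, h4⟩⟩
      · exact hqz h3.symm
      · exact hzo h3
      · exact hqo' h4
    have d2 : ∀ w, dg G2 w = dg G w := by
      intro w
      by_cases hwp : w = p
      · subst hwp
        have e1 := dg_mv_x a1 hpq
        have e2 := dg_mv_y (y := w) hqo hpo'.symm hpq.symm hpo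
        rw [← hG2] at e1
        rw [← hG1] at e2
        omega
      · by_cases hwq : w = q
        · subst hwq
          have e1 := dg_mv_y a1 hzq hpq a2
          have e2 := dg_mv_x (y := p) hqo hpq.symm
          rw [← hG2] at e1
          rw [← hG1] at e2
          omega
        · rw [hG2, dg_mv_of_ne a1 hzq hpq a2 hwp hwq, hG1,
            dg_mv_of_ne hqo hpo'.symm hpq.symm hpo hwq hwp]
    have c2 : IsCut G2 v A := isCut_mv (isCut_mv hcut hoA hpA) hzA hqA
    have n2 : nb G2 o = insert p ((nb G o).erase q) := by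
      rw [hG2, nb_mv_of_ne hpo'.symm hqo'.symm hzo.symm, hG1, nb_mv_z hqo hpo'.symm hpq.symm]
    have hcard2 : (T \ nb G2 o).card = m := by
      have h3 : T \ nb G2 o = (T \ nb G o).erase p := by
        rw [n2]
        ext w
        simp only [mem_sdiff, mem_insert, mem_erase, mem_nb, not_or, not_and]
        constructor
        · rintro ⟨h4, h5, h6⟩
          refine ⟨h5, h4, ?_⟩
          exact h6 (fun h => hqT (h ▸ h4))
        · rintro ⟨h5, h4, h6⟩
          exact ⟨h4, h5, fun _ => h6⟩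
      rw [h3, card_erase_of_mem (by rw [mem_sdiff, mem_nb]; exact ⟨hpT, hpo⟩), hm]
      rfl
    obtain ⟨G', h3, h4, h5⟩ := ih G2 hcard2 (by rw [d2]; exact hT) c2
      (fun p hp q hq hqo => by rw [d2, d2]; exact h1 p hp q hq hqo)
      (fun q hq hqo => by rw [d2, d2]; exact h2 q hq hqo)
    exact ⟨G', fun w => by rw [h3, d2], h4, h5⟩

end Pool.Agent.Lib.MP_4eff47_co
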