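import Pool.Agent.Lib.MP_4eff47_co.Sorted

/-!
# The insertion move on sorted lists
-/

namespace Pool.Agent.Lib.MP_4eff47_co

open Finset
open scoped Classical

set_option linter.unusedSectionVars false

/-- Insert a vertex joined to the `k` first vertices. -/
def ins (k : ℕ) (l : List ℕ) : List ℕ :=
  (l.take k).map (· + 1) ++ (l.drop k).orderedInsert (· ≥ ·) k

/-- Undo the insertion. -/
def del (k : ℕ) (l : List ℕ) : List ℕ :=
  (l.take k).map (· - 1) ++ (l.drop k).erase k

/-- The insertion can be undone. -/
def Good (k : ℕ) (l : List ℕ) : Prop :=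
  k ≤ l.length ∧ k ∈ l.drop k ∧ ∀ x ∈ l.take k, ∀ y ∈ l.drop k, y < x

lemma length_ins {k : ℕ} {l : List ℕ} (hk : k ≤ l.length) : (ins k l).length = l.length + 1 := by
  unfold ins
  rw [List.length_append, List.length_map, List.length_take, List.orderedInsert_length,
    List.length_drop]
  omega

lemma take_ins {k : ℕ} {l : List ℕ} (hk : k ≤ l.length) :
    (ins k l).take k = (l.take k).map (· + 1) := by
  unfold ins
  rw [List.take_left']
  rw [List.length_map, List.length_take]
  omega

lemma drop_ins {k : ℕ} {l : List ℕ} (hk : k ≤ l.length) :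
    (ins k l).drop k = (l.drop k).orderedInsert (· ≥ ·) k := by
  unfold ins
  rw [List.drop_left']
  rw [List.length_map, List.length_take]
  omega

lemma del_ins {k : ℕ} {l : List ℕ} (hk : k ≤ l.length) : del k (ins k l) = l := by
  unfold del
  rw [take_ins hk, drop_ins hk, List.map_map, List.erase_orderedInsert]
  have : ((fun x => x - 1) ∘ fun x : ℕ => x + 1) = id := by
    funext x
    simp
  rw [this, List.map_id, List.take_append_drop]

lemma ins_inj {k : ℕ} {l m : List ℕ} (hk : k ≤ l.length) (hk' : k ≤ m.length)
    (h : ins k l = ins k m) : l = m := by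
  rw [← del_ins hk, h, del_ins hk']

lemma pairwise_ins {k : ℕ} {l : List ℕ} (hs : l.Pairwise (· ≥ ·))
    (h : ∀ x ∈ l.take k, k ≤ x) : (ins k l).Pairwise (· ≥ ·) := by
  have hs' := hs
  rw [← List.take_append_drop k l, List.pairwise_append] at hs
  obtain ⟨h1, h2, h3⟩ := hs
  unfold ins
  rw [List.pairwise_append]
  refine ⟨?_, ?_, ?_⟩
  · rw [List.pairwise_map]
    exact h1.imp (fun h => Nat.succ_le_succ h)
  · exact List.Pairwise.orderedInsert k _ h2
  · intro a ha b hb
    rw [List.mem_map] at ha
    obtain ⟨x, hx, rfl⟩ := ha
    rw [List.mem_orderedInsert] at hb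
    rcases hb with rfl | hb
    · have := h x hx
      show b ≤ x + 1
      omega
    · have := h3 x hx b hb
      show b ≤ x + 1
      have : b ≤ x := this
      omega

lemma good_ins {k : ℕ} {l : List ℕ} (hk : k ≤ l.length) (hs : l.Pairwise (· ≥ ·))
    (h : ∀ x ∈ l.take k, k ≤ x) : Good k (ins k l) := by
  rw [← List.take_append_drop k l, List.pairwise_append] at hs
  obtain ⟨h1, h2, h3⟩ := hs
  refine ⟨by rw [length_ins hk]; omega, ?_, ?_⟩
  · rw [drop_ins hk, List.mem_orderedInsert]
    exact Or.inl rfl
  · intro a ha b hb
    rw [take_ins hk, List.mem_map] at ha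
    obtain ⟨x, hx, rfl⟩ := ha
    rw [drop_ins hk, List.mem_orderedInsert] at hb
    rcases hb with rfl | hb
    · have := h x hx
      omega
    · have : b ≤ x := h3 x hx b hb
      omega

lemma length_del {k : ℕ} {l : List ℕ} (h : Good k l) : (del k l).length + 1 = l.length := by
  obtain ⟨h1, h2, -⟩ := h
  unfold del
  rw [List.length_append, List.length_map, List.length_take, List.length_erase_of_mem h2,
    List.length_drop]
  have h3 : (l.drop k).length ≠ 0 := by
    intro h4
    rw [List.length_eq_zero_iff] at h4
    rw [h4] at h2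
    simp at h2
  rw [List.length_drop] at h3
  omega

lemma take_del {k : ℕ} {l : List ℕ} (h : Good k l) :
    (del k l).take k = (l.take k).map (· - 1) := by
  unfold del
  rw [List.take_left']
  rw [List.length_map, List.length_take]
  exact Nat.min_eq_left h.1

lemma drop_del {k : ℕ} {l : List ℕ} (h : Good k l) :
    (del k l).drop k = (l.drop k).erase k := by
  unfold del
  rw [List.drop_left']
  rw [List.length_map, List.length_take]
  exact Nat.min_eq_left h.1

lemma ins_del {k : ℕ} {l : List ℕ} (h : Good k l) (hs : l.Pairwise (· ≥ ·)) :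
    ins k (del k l) = l := by
  have hs' := hs
  rw [← List.take_append_drop k l, List.pairwise_append] at hs
  obtain ⟨h1, h2, h3⟩ := hs
  unfold ins
  rw [take_del h, drop_del h, List.map_map, List.orderedInsert_erase _ _ h.2.1 h2]
  have : (l.take k).map ((fun x => x + 1) ∘ fun x : ℕ => x - 1) = l.take k := by
    conv_rhs => rw [← List.map_id (l.take k)]
    apply List.map_congr_left
    intro x hx
    have := h.2.2 x hx k h.2.1
    simp only [Function.comp, id]
    omega
  rw [this, List.take_append_drop]

lemma pairwise_del {k : ℕ} {l : List ℕ} (h : Good k l) (hs : l.Pairwise (· ≥ ·)) :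
    (del k l).Pairwise (· ≥ ·) := by
  rw [← List.take_append_drop k l, List.pairwise_append] at hs
  obtain ⟨h1, h2, h3⟩ := hs
  unfold del
  rw [List.pairwise_append]
  refine ⟨?_, ?_, ?_⟩
  · rw [List.pairwise_map]
    exact h1.imp (fun {a b} h => by
      show b - 1 ≤ a - 1
      have : b ≤ a := h
      omega)
  · exact h2.sublist List.erase_sublist
  · intro a ha b hb
    rw [List.mem_map] at ha
    obtain ⟨x, hx, rfl⟩ := ha
    have h4 := h.2.2 x hx b (List.mem_of_mem_erase hb)
    show b ≤ x - 1
    omega

lemma orderedInsert_append {a : ℕ} : ∀ {p r : List ℕ}, (∀ x ∈ p, a < x) →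
    (p ++ r).orderedInsert (· ≥ ·) a = p ++ r.orderedInsert (· ≥ ·) a
  | [], r, _ => rfl
  | b :: p, r, h => by
    have h1 : ¬ (a ≥ b) := by
      have := h b (List.mem_cons_self ..)
      omega
    rw [List.cons_append, List.orderedInsert_of_not_le _ _ h1,
      orderedInsert_append (fun x hx => h x (List.mem_cons_of_mem _ hx)), List.cons_append]

/-- After undoing the insertion of `k`, the insertion of `k'` can still be undone. -/
lemma good_of_two {k k' : ℕ} (hkk : k < k') {l' : List ℕ} (hl' : k' ≤ l'.length)
    (hs : l'.Pairwise (· ≥ ·)) (hbig : ∀ x ∈ l'.take k', k < x)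
    (h : Good k' (ins k l')) : Good k' l' := by
  have hk : k ≤ l'.length := by omega
  -- split
  have e0 : l'.take k' = l'.take k ++ (l'.drop k).take (k' - k) := by
    conv_lhs => rw [← List.take_append_drop k l']
    rw [List.take_append, List.length_take, Nat.min_eq_left hk, List.take_take,
      Nat.min_eq_right (le_of_lt hkk)]
  have e1 : l'.drop k = (l'.drop k).take (k' - k) ++ l'.drop k' := by
    conv_lhs => rw [← List.take_append_drop (k' - k) (l'.drop k)]
    rw [List.drop_drop]
    congr 2
    omega
  have e2 : ins k l' = ((l'.take k).map (· + 1) ++ (l'.drop k).take (k' - k)) ++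
      (l'.drop k').orderedInsert (· ≥ ·) k := by
    unfold ins
    rw [List.append_assoc]
    congr 1
    conv_lhs => rw [e1]
    apply orderedInsert_append
    intro x hx
    apply hbig
    rw [e0, List.mem_append]
    exact Or.inr hx
  have elen : ((l'.take k).map (· + 1) ++ (l'.drop k).take (k' - k)).length = k' := by
    rw [List.length_append, List.length_map, List.length_take, List.length_take,
      List.length_drop]
    omega
  have e3 : (ins k l').take k' = (l'.take k).map (· + 1) ++ (l'.drop k).take (k' - k) := by
    rw [e2, List.take_left' elen]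
  have e4 : (ins k l').drop k' = (l'.drop k').orderedInsert (· ≥ ·) k := by
    rw [e2, List.drop_left' elen]
  obtain ⟨-, h2, h3⟩ := h
  rw [e4] at h2 h3
  rw [e3] at h3
  refine ⟨hl', ?_, ?_⟩
  · rw [List.mem_orderedInsert] at h2
    rcases h2 with h2 | h2
    · omega
    · exact h2
  · have h4 : ∀ x ∈ (l'.drop k).take (k' - k), ∀ y ∈ l'.drop k', y < x := by
      intro x hx y hy
      apply h3 x _ y
      · rw [List.mem_orderedInsert]
        exact Or.inr hy
      · rw [List.mem_append]
        exact Or.inr hx
    intro x hx y hy
    rw [e0, List.mem_append] at hx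
    rcases hx with hx | hx
    · obtain ⟨z, hz⟩ : ∃ z, z ∈ (l'.drop k).take (k' - k) := by
        apply List.exists_mem_of_length_pos
        rw [List.length_take, List.length_drop]
        omega
      have h5 := h4 z hz y hy
      rw [← List.take_append_drop k l', List.pairwise_append] at hs
      have h6 : z ≤ x := hs.2.2 x hx z (List.mem_of_mem_take hz)
      omega
    · exact h4 x hx y hy

lemma card_filter_lt {n k : ℕ} (hk : k ≤ n) :
    ((univ : Finset (Fin n)).filter (fun i => i.val < k)).card = k := by
  have h1 : ((univ : Finset (Fin n)).filter (fun i => i.val < k)).map Fin.valEmbedding =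
      range k := by
    ext x
    rw [mem_map, mem_range]
    constructor
    · rintro ⟨i, hi, rfl⟩
      rw [mem_filter] at hi
      exact hi.2
    · intro hx
      exact ⟨⟨x, by omega⟩, by simp [hx], rfl⟩
  rw [← card_map Fin.valEmbedding, h1, card_range]

lemma coe_ins {k : ℕ} {l : List ℕ} (hk : k ≤ l.length) :
    (univ : Finset (Option (Fin l.length))).val.map
      (dplus (fun i => l.get i) (univ.filter (fun i => i.val < k))) = (ins k l : Multiset ℕ) := by
  have h1 : (univ : Finset (Option (Fin l.length))).val =
      none ::ₘ (univ : Finset (Fin l.length)).val.map some := rfl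
  have h2 : (univ : Finset (Fin l.length)).val = (List.finRange l.length : Multiset _) := rfl
  rw [h1, Multiset.map_cons, Multiset.map_map, h2, Multiset.map_coe]
  have h3 : dplus (fun i => l.get i) (univ.filter (fun i => i.val < k)) none = k :=
    card_filter_lt hk
  rw [h3]
  have h4 : (List.finRange l.length).map
      (dplus (fun i => l.get i) (univ.filter (fun i => i.val < k)) ∘ some) =
      (l.take k).map (· + 1) ++ l.drop k := by
    apply List.ext_getElem
    · simp only [List.length_map, List.length_finRange, List.length_append, List.length_take,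
        List.length_drop]
      omega
    · intro i hi1 hi2
      rw [List.getElem_map, List.getElem_finRange]
      simp only [Function.comp, dplus, mem_filter, mem_univ, true_and, Fin.cast_mk,
        List.get_eq_getElem]
      by_cases hik : i < k
      · rw [List.getElem_append_left (by simp; omega), List.getElem_map, List.getElem_take]
        simp [hik]
      · rw [List.getElem_append_right (by simp; omega)]
        simp only [hik, if_false, add_zero, List.length_map, List.length_take,
          List.getElem_drop]
        congr 1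
        omega
  rw [h4]
  unfold ins
  rw [← Multiset.coe_add, ← Multiset.coe_add]
  have h5 : (((l.drop k).orderedInsert (· ≥ ·) k : List ℕ) : Multiset ℕ) =
      k ::ₘ (l.drop k : Multiset ℕ) := by
    rw [Multiset.cons_coe, Multiset.coe_eq_coe]
    exact List.perm_orderedInsert _ _ _
  rw [h5, Multiset.add_cons]

/-- The move keeps the property of being forcibly biconnected. -/
theorem fbl_ins_iff {k q : ℕ} {l : List ℕ} (hs : l.Pairwise (· ≥ ·)) (h2k : 2 ≤ k)
    (c1 : ∀ i (h : i < l.length), i < 2 → l.length ≤ l[i] + 1 + q)
    (c2 : ∀ i (h : i < l.length), k ≤ i → l[i] + 2 * q < l.length)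
    (c3 : ∀ i (h : i < l.length), i < k → l.length ≤ 2 * l[i])
    (c4 : q < k) (c5 : k + q < l.length) : FBl (ins k l) ↔ FBl l := by
  have hk : k ≤ l.length := by omega
  rw [fbl_iff (coe_ins hk)]
  unfold FBl
  symm
  have hn : Fintype.card (Fin l.length) = l.length := Fintype.card_fin _
  apply fbt_iff (q := q)
  · exact ⟨⟨0, by omega⟩, by rw [mem_filter]; exact ⟨mem_univ _, by show 0 < k; omega⟩⟩
  · intro p hp j hj
    rw [mem_filter] at hp hj
    have hp' : p.val < k := hp.2
    have hj' : ¬ j.val < k := fun h => hj ⟨mem_univ _, h⟩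
    exact (List.sortedGE_iff_antitone_get.1 (List.sortedGE_iff_pairwise.2 hs))
      (Fin.le_def.2 (by omega))
  · refine ⟨⟨0, by omega⟩, ?_, ⟨1, by omega⟩, ?_, ?_, ?_, ?_⟩
    · rw [mem_filter]
      exact ⟨mem_univ _, by show 0 < k; omega⟩
    · rw [mem_filter]
      exact ⟨mem_univ _, by show 1 < k; omega⟩
    · intro h
      have := congrArg Fin.val h
      simp at this
    · rw [hn]
      exact c1 0 (by omega) (by omega)
    · rw [hn]
      exact c1 1 (by omega) (by omega)
  · intro j hj
    rw [mem_filter] at hj
    have hj' : ¬ j.val < k := fun h => hj ⟨mem_univ _, h⟩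
    rw [hn]
    exact c2 j.val j.2 (by omega)
  · intro p hp
    rw [mem_filter] at hp
    rw [hn]
    exact c3 p.val p.2 hp.2
  · rw [card_filter_lt hk]
    exact c4
  · rw [card_filter_lt hk, hn]
    exact c5

end Pool.Agent.Lib.MP_4eff47_co
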