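import Pool.Agent.Lib.MP_4eff47_co.Sorted
import Pool.Agent.Lib.MP_4eff47_co.Move

/-!
# A lower bound for the number of forcibly biconnected sequences
-/

namespace Pool.Agent.Lib.MP_4eff47_co

open Finset
open scoped Classical

set_option linter.unusedSectionVars false

/-- Two dominating vertices force the absence of cuts. -/
lemma not_hasCut {V : Type*} [Fintype V] {G : SimpleGraph V} {x y : V} (hxy : x ≠ y)
    (hx : dg G x + 1 = Fintype.card V) (hy : dg G y + 1 = Fintype.card V) : ¬ HasCut G := by
  have key : ∀ z, dg G z + 1 = Fintype.card V → ∀ w, w ≠ z → G.Adj z w := by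
    intro z hz w hw
    by_contra hn
    have h1 : nb G z ⊆ (univ.erase z).erase w := by
      intro u hu
      rw [mem_nb] at hu
      rw [mem_erase, mem_erase]
      exact ⟨fun h => hn (h ▸ hu), hu.ne.symm, mem_univ _⟩
    have h2 := card_le_card h1
    have h3 := card_erase_add_one (mem_univ z)
    have h4 := card_erase_add_one (show w ∈ univ.erase z from mem_erase.2 ⟨hw, mem_univ _⟩)
    rw [card_univ] at h3
    unfold dg at hz
    omega
  rintro ⟨v, A, hc, ⟨a, ha⟩, b, hb, hbv⟩
  obtain ⟨u, huv, hu⟩ : ∃ u, u ≠ v ∧ ∀ w, w ≠ u → G.Adj u w := by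
    by_cases h : x = v
    · exact ⟨y, fun h' => hxy (h.trans h'.symm), key y hy⟩
    · exact ⟨x, h, key x hx⟩
  by_cases huA : u ∈ A
  · have hbu : b ≠ u := fun h => hb (h ▸ huA)
    rcases hc.2 u huA b (hu b hbu) with h | h
    · exact hb h
    · exact hbv h
  · have hau : a ≠ u := fun h => huA (h ▸ ha)
    rcases hc.2 a ha u (hu a hau).symm with h | h
    · exact huA h
    · exact huv h

section

variable {B M N R : ℕ}

/-- The block graph. -/
def GA (B M N R : ℕ) (b : Fin B → Fin M → ℕ) :
    SimpleGraph ((Fin B × Fin M) ⊕ (Fin N ⊕ Fin R)) where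
  Adj x y := x ≠ y ∧ match x, y with
    | .inl p, .inl p' => B ≤ p.1.val + p'.1.val
    | .inl p, .inr (.inl u) => u.val < b p.1 p.2
    | .inl _, .inr (.inr _) => True
    | .inr (.inl u), .inl p => u.val < b p.1 p.2
    | .inr (.inl _), .inr (.inl _) => False
    | .inr (.inl _), .inr (.inr _) => True
    | .inr (.inr _), .inl _ => True
    | .inr (.inr _), .inr (.inl _) => True
    | .inr (.inr _), .inr (.inr _) => True
  symm := ⟨by
    rintro (p | u | r) (p' | u' | r') ⟨h1, h2⟩
    all_goals refine ⟨h1.symm, ?_⟩
    · show B ≤ p'.1.val + p.1.val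
      have : B ≤ p.1.val + p'.1.val := h2
      omega
    all_goals exact h2⟩
  loopless := ⟨fun x h => h.1 rfl⟩

/-- The offset of a block. -/
def cc (B M R : ℕ) (β : ℕ) : ℕ := M * β + R - (if B ≤ 2 * β then 1 else 0)

lemma dg_GA_main (hR : 0 < R) (b : Fin B → Fin M → ℕ) (hb : ∀ β i, b β i ≤ N)
    (β : Fin B) (i : Fin M) : dg (GA B M N R b) (.inl (β, i)) = cc B M R β.val + b β i := by
  unfold dg nb
  rw [card_filter, Fintype.sum_sum_type, Fintype.sum_sum_type]
  have e1 : (∑ u : Fin N, if (GA B M N R b).Adj (.inl (β, i)) (.inr (.inl u)) then 1 else 0) =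
      b β i := by
    have : ∀ u : Fin N, (GA B M N R b).Adj (.inl (β, i)) (.inr (.inl u)) ↔ u.val < b β i := by
      intro u
      simp [GA]
    simp only [this]
    rw [← card_filter]
    exact card_filter_lt (hb β i)
  have e2 : (∑ r : Fin R, if (GA B M N R b).Adj (.inl (β, i)) (.inr (.inr r)) then 1 else 0) =
      R := by
    have : ∀ r : Fin R, (GA B M N R b).Adj (.inl (β, i)) (.inr (.inr r)) := by
      intro r
      simp [GA]
    simp [this]
  have e3 : (∑ p : Fin B × Fin M, if (GA B M N R b).Adj (.inl (β, i)) (.inl p) then 1 else 0) +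
      (if B ≤ 2 * β.val then 1 else 0) = M * β.val := by
    have h1 : ∀ p : Fin B × Fin M, (GA B M N R b).Adj (.inl (β, i)) (.inl p) ↔
        (p ≠ (β, i) ∧ B ≤ β.val + p.1.val) := by
      intro p
      simp [GA, eq_comm]
    simp only [h1]
    rw [← card_filter]
    have h2 : (univ.filter (fun p : Fin B × Fin M => B ≤ β.val + p.1.val)).card = M * β.val := by
      have h3 : univ.filter (fun p : Fin B × Fin M => B ≤ β.val + p.1.val) =
          (univ.filter (fun p : Fin B => B ≤ β.val + p.val)) ×ˢ (univ : Finset (Fin M)) := by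
        ext p
        simp
      rw [h3, card_product, card_univ, Fintype.card_fin, mul_comm]
      congr 1
      have h4 := card_filter_add_card_filter_not (s := (univ : Finset (Fin B)))
        (fun p : Fin B => p.val < B - β.val)
      rw [card_filter_lt (Nat.sub_le _ _), card_univ, Fintype.card_fin] at h4
      have h5 : (univ.filter (fun p : Fin B => B ≤ β.val + p.val)) =
          (univ.filter (fun p : Fin B => ¬ p.val < B - β.val)) := by
        ext p
        simp only [mem_filter, mem_univ, true_and]
        omega
      rw [h5]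
      have := β.2
      omega
    have h3 : univ.filter (fun p : Fin B × Fin M => p ≠ (β, i) ∧ B ≤ β.val + p.1.val) =
        (univ.filter (fun p : Fin B × Fin M => B ≤ β.val + p.1.val)).erase (β, i) := by
      ext p
      simp
    rw [h3]
    by_cases h4 : B ≤ 2 * β.val
    · rw [if_pos h4, card_erase_add_one, h2]
      rw [mem_filter]
      exact ⟨mem_univ _, by show B ≤ β.val + β.val; omega⟩
    · rw [if_neg h4, erase_eq_of_notMem, add_zero, h2]
      rw [mem_filter]
      rintro ⟨-, h5⟩
      have h5 : B ≤ β.val + β.val := h5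
      omega
  rw [e1, e2]
  unfold cc
  omega

lemma dg_GA_univ (b : Fin B → Fin M → ℕ) (r : Fin R) :
    dg (GA B M N R b) (.inr (.inr r)) + 1 =
      Fintype.card ((Fin B × Fin M) ⊕ (Fin N ⊕ Fin R)) := by
  have h1 : nb (GA B M N R b) (.inr (.inr r)) = univ.erase (.inr (.inr r)) := by
    ext x
    rw [mem_nb, mem_erase]
    rcases x with p | u | r' <;> simp [GA, eq_comm]
  unfold dg
  rw [h1, card_erase_add_one (mem_univ _), card_univ]

lemma fbt_GA (hR : 2 ≤ R) (b : Fin B → Fin M → ℕ) : FBt (dg (GA B M N R b)) := by
  refine ⟨⟨GA B M N R b, fun _ => rfl⟩, ?_⟩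
  intro G hG
  apply not_hasCut (x := .inr (.inr ⟨0, by omega⟩)) (y := .inr (.inr ⟨1, by omega⟩))
  · intro h
    simp at h
  · rw [hG, dg_GA_univ]
  · rw [hG, dg_GA_univ]

/-- The sorted degree sequence. -/
noncomputable def seqOf {V : Type*} [Fintype V] (d : V → ℕ) : List ℕ :=
  ((univ : Finset V).val.map d).sort (· ≥ ·)

lemma coe_seqOf {V : Type*} [Fintype V] (d : V → ℕ) :
    (seqOf d : Multiset ℕ) = (univ : Finset V).val.map d := Multiset.sort_eq _ _

lemma seqOf_mem {V : Type*} [Fintype V] {d : V → ℕ} (h : FBt d) :
    seqOf d ∈ S (Fintype.card V) := by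
  rw [mem_S]
  refine ⟨?_, Multiset.pairwise_sort _ _, ?_⟩
  · unfold seqOf
    rw [Multiset.length_sort, Multiset.card_map]
    rfl
  · rw [fbl_iff (coe_seqOf d).symm]
    exact h

/-- A function with a prescribed multiset of values. -/
lemma exists_fun_of_sym (s : Sym (Fin N) M) :
    ∃ f : Fin M → Fin N, (univ : Finset (Fin M)).val.map f = s.1 := by
  obtain ⟨l, hl⟩ := Quot.exists_rep s.1
  have hlen : l.length = M := by
    have := s.2
    rw [← hl] at this
    exact this
  subst hlen
  refine ⟨l.get, ?_⟩
  have h1 : (univ : Finset (Fin l.length)).val = (List.finRange l.length : Multiset _) := rfl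
  rw [h1, Multiset.map_coe, ← hl, List.map_get_finRange]
  rfl

theorem count_ineq (hM : M = N + 1) (hR : 2 ≤ R) :
    (Nat.multichoose N M) ^ B ≤ (S (B * M + (N + R))).card * (B * M + (N + R)) ^ N := by
  choose f hf using (exists_fun_of_sym : ∀ s : Sym (Fin N) M, _)
  set n := B * M + (N + R) with hn
  have hV : Fintype.card ((Fin B × Fin M) ⊕ (Fin N ⊕ Fin R)) = n := by
    simp [hn]
  set b : (Fin B → Sym (Fin N) M) → Fin B → Fin M → ℕ := fun s β i => (f (s β) i).val with hb
  set G : (Fin B → Sym (Fin N) M) → SimpleGraph ((Fin B × Fin M) ⊕ (Fin N ⊕ Fin R)) :=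
    fun s => GA B M N R (b s) with hG
  have hdlt : ∀ s x, dg (G s) x < n := by
    intro s x
    have := dg_lt (G s) x
    rwa [hV] at this
  have hcard : Fintype.card (Fin B → Sym (Fin N) M) = (Nat.multichoose N M) ^ B := by
    rw [Fintype.card_fun, Fintype.card_fin, Sym.card_sym_fin_eq_multichoose]
  have hcard2 : ((S n) ×ˢ (univ : Finset (Fin N → Fin n))).card = (S n).card * n ^ N := by
    rw [card_product, card_univ, Fintype.card_fun, Fintype.card_fin, Fintype.card_fin]
  rw [← hcard, ← hcard2, ← card_univ]
  apply card_le_card_of_injOn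
    (fun s => (seqOf (dg (G s)), fun u => ⟨dg (G s) (.inr (.inl u)), hdlt s _⟩))
  · intro s _
    refine mem_coe.2 (mem_product.2 ⟨?_, mem_univ _⟩)
    have := seqOf_mem (fbt_GA (N := N) hR (b s))
    rw [hV] at this
    exact this
  · intro s _ s' _ hss
    simp only [Prod.mk.injEq] at hss
    obtain ⟨h1, h2⟩ := hss
    have h3 : ∀ u, dg (G s) (.inr (.inl u)) = dg (G s') (.inr (.inl u)) := by
      intro u
      have := congrFun h2 u
      simpa using this
    -- counts of mains
    have hcnt : ∀ t x, Multiset.count x (seqOf (dg (G t)) : Multiset ℕ) =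
        (∑ p : Fin B × Fin M, if dg (G t) (.inl p) = x then 1 else 0) +
        ((∑ u : Fin N, if dg (G t) (.inr (.inl u)) = x then 1 else 0) +
        ∑ r : Fin R, if n - 1 = x then 1 else 0) := by
      intro t x
      rw [coe_seqOf, Multiset.count_map, ← Finset.filter_val, ← card_def]
      have e1 : (univ.filter (fun a => x = dg (G t) a)).card =
          ∑ a, if dg (G t) a = x then 1 else 0 := by
        rw [card_filter]
        refine sum_congr rfl fun a _ => ?_
        by_cases h : x = dg (G t) a
        · rw [if_pos h, if_pos h.symm]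
        · rw [if_neg h, if_neg (Ne.symm h)]
      rw [e1, Fintype.sum_sum_type, Fintype.sum_sum_type]
      congr 2
      refine sum_congr rfl fun r _ => ?_
      have h4 := dg_GA_univ (N := N) (b t) r
      rw [hV] at h4
      have h5 : dg (G t) (.inr (.inr r)) = n - 1 := by
        show dg (GA B M N R (b t)) _ = n - 1
        omega
      rw [h5]
    have hmain : ∀ x, (∑ p : Fin B × Fin M, if dg (G s) (.inl p) = x then 1 else 0) =
        ∑ p : Fin B × Fin M, if dg (G s') (.inl p) = x then 1 else 0 := by
      intro x
      have e1 := hcnt s x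
      have e2 := hcnt s' x
      rw [h1, e2] at e1
      simp only [h3] at e1
      omega
    -- the count in one block
    have hblock : ∀ t (β : Fin B) (y : Fin N), (∑ p : Fin B × Fin M,
        if dg (G t) (.inl p) = cc B M R β.val + y.val then 1 else 0) =
        Multiset.count y (t β).1 := by
      intro t β y
      have hdm : ∀ p : Fin B × Fin M, dg (G t) (.inl p) =
          cc B M R p.1.val + (f (t p.1) p.2).val := by
        intro p
        exact dg_GA_main (by omega) (b t) (fun β i => le_of_lt (f (t β) i).2) p.1 p.2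
      rw [← hf (t β), Multiset.count_map, ← Finset.filter_val, ← card_def, card_filter,
        Fintype.sum_prod_type, sum_eq_single β]
      · refine sum_congr rfl fun i _ => ?_
        rw [hdm]
        by_cases h : y = f (t β) i
        · rw [if_pos h, if_pos (by rw [h])]
        · rw [if_neg h, if_neg]
          intro h'
          apply h
          have : (f (t β) i).val = y.val := by
            have h' : cc B M R β.val + (f (t β) i).val = cc B M R β.val + y.val := h'
            omega
          exact Fin.ext this.symm
      · intro β' _ hβ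
        apply sum_eq_zero
        intro i _
        rw [if_neg]
        rw [hdm]
        intro h
        have h : cc B M R β'.val + (f (t β') i).val = cc B M R β.val + y.val := h
        have h5 := (f (t β') i).2
        have h6 := y.2
        have hne : β'.val ≠ β.val := fun h => hβ (Fin.ext h)
        have hsep : ∀ a c : ℕ, a < c → cc B M R a + N ≤ cc B M R c := by
          intro a c hac
          unfold cc
          have h7 : M * (a + 1) ≤ M * c := Nat.mul_le_mul_left _ hac
          rw [Nat.mul_add, Nat.mul_one] at h7
          split_ifs <;> omega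
        rcases lt_or_gt_of_ne hne with h7 | h7
        · have := hsep _ _ h7
          omega
        · have := hsep _ _ h7
          omega
      · intro h
        exact absurd (mem_univ _) h
    funext β
    apply Subtype.ext
    ext y
    rw [← hblock s β y, ← hblock s' β y, hmain]

end

end Pool.Agent.Lib.MP_4eff47_co
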