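import Pool.Agent.Lib.MP_4eff47_co.Cut

/-!
# Link between the statement and the working definitions
-/

namespace Pool.Agent.Lib.MP_4eff47_co

open Finset
open scoped Classical

set_option linter.unusedSectionVars false

variable {V : Type*} [Fintype V] {W : Type*} [Fintype W]

theorem twoConnected_iff (hV : 3 ≤ Fintype.card V) (G : SimpleGraph V) :
    TwoConnected G ↔ ¬ HasCut G := by
  constructor
  · rintro ⟨-, -, h⟩ ⟨v, A, hc, ⟨a, ha⟩, b, hb, hbv⟩
    have hav : a ≠ v := fun h => hc.1 (h ▸ ha)
    obtain ⟨p⟩ := (h v).preconnected ⟨a, hav⟩ ⟨b, hbv⟩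
    have key : ∀ (x y : ({v}ᶜ : Set V)), (G.induce {v}ᶜ).Walk x y → x.1 ∈ A → y.1 ∈ A := by
      intro x y p
      induction p with
      | nil => exact id
      | @cons u w z hadj p ih =>
        intro hx
        apply ih
        rcases hc.2 _ hx _ hadj with h | h
        · exact h
        · exact absurd h w.2
    exact hb (key _ _ p ha)
  · intro h
    have h1 : ∀ v, (G.induce {v}ᶜ).Connected := by
      intro v
      have hne : Nonempty ({v}ᶜ : Set V) := by
        by_contra hcon
        have h2 : (univ : Finset V) ⊆ {v} := by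
          intro x _
          rw [mem_singleton]
          by_contra hx
          exact hcon ⟨⟨x, hx⟩⟩
        have h3 := card_le_card h2
        rw [card_univ, card_singleton] at h3
        omega
      refine ⟨?_⟩
      intro a b
      by_contra hab
      apply h
      refine ⟨v, univ.filter (fun w => ∃ hw : w ∈ ({v}ᶜ : Set V),
        (G.induce {v}ᶜ).Reachable a ⟨w, hw⟩), ⟨?_, ?_⟩, ⟨a, ?_⟩, b, ?_, b.2⟩
      · rw [mem_filter]
        rintro ⟨-, h2, -⟩
        exact h2 rfl
      · intro x hx w hxw
        rw [mem_filter] at hx
        obtain ⟨-, hxv, hr⟩ := hx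
        by_cases hw : w = v
        · exact Or.inr hw
        · left
          rw [mem_filter]
          refine ⟨mem_univ _, hw, hr.trans ?_⟩
          apply SimpleGraph.Adj.reachable
          exact hxw
      · rw [mem_filter]
        exact ⟨mem_univ _, a.2, SimpleGraph.Reachable.refl _⟩
      · rw [mem_filter]
        rintro ⟨-, h2, h3⟩
        exact hab h3
    have hneV : Nonempty V := by
      rw [← Fintype.card_pos_iff]
      omega
    refine ⟨hV, ⟨?_⟩, h1⟩
    · intro a b
      obtain ⟨v, hv⟩ : ∃ v : V, v ∉ ({a, b} : Finset V) := by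
        by_contra hcon
        push Not at hcon
        have h2 : (univ : Finset V) ⊆ {a, b} := fun x _ => hcon x
        have h3 := card_le_card h2
        have h4 : ({a, b} : Finset V).card ≤ 2 := card_le_two
        rw [card_univ] at h3
        omega
      rw [mem_insert, mem_singleton, not_or] at hv
      have h2 := (h1 v).preconnected ⟨a, Ne.symm hv.1⟩ ⟨b, Ne.symm hv.2⟩
      exact h2.map (SimpleGraph.Embedding.induce _).toHom

/-- Invariance under relabelling. -/
theorem fbt_comp (e : W ≃ V) (d : V → ℕ) : FBt (fun w => d (e w)) ↔ FBt d := by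
  have dgc : ∀ (G : SimpleGraph V) (w : W), dg (G.comap e) w = dg G (e w) := by
    intro G w
    unfold dg
    have : nb G (e w) = (nb (G.comap e) w).map e.toEmbedding := by
      ext u
      rw [mem_nb, mem_map_equiv, mem_nb, SimpleGraph.comap_adj, Equiv.apply_symm_apply]
    rw [this, card_map]
  have cutc : ∀ G : SimpleGraph V, HasCut (G.comap e) ↔ HasCut G := by
    intro G
    constructor
    · rintro ⟨v, A, hc, ⟨a, ha⟩, b, hb, hbv⟩
      refine ⟨e v, A.map e.toEmbedding, ⟨?_, ?_⟩, ⟨e a, ?_⟩, e b, ?_, ?_⟩
      · rw [mem_map_equiv, Equiv.symm_apply_apply]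
        exact hc.1
      · intro x hx w hxw
        rw [mem_map_equiv] at hx
        have h1 : (G.comap e).Adj (e.symm x) (e.symm w) := by
          rw [SimpleGraph.comap_adj, Equiv.apply_symm_apply, Equiv.apply_symm_apply]
          exact hxw
        rcases hc.2 _ hx _ h1 with h | h
        · left
          rw [mem_map_equiv]
          exact h
        · right
          rw [← h, Equiv.apply_symm_apply]
      · rw [mem_map_equiv, Equiv.symm_apply_apply]
        exact ha
      · rw [mem_map_equiv, Equiv.symm_apply_apply]
        exact hb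
      · exact fun h => hbv (e.injective h)
    · rintro ⟨v, A, hc, ⟨a, ha⟩, b, hb, hbv⟩
      refine ⟨e.symm v, A.map e.symm.toEmbedding, ⟨?_, ?_⟩, ⟨e.symm a, ?_⟩, e.symm b, ?_, ?_⟩
      · rw [mem_map_equiv, Equiv.symm_symm, Equiv.apply_symm_apply]
        exact hc.1
      · intro x hx w hxw
        rw [mem_map_equiv, Equiv.symm_symm] at hx
        rcases hc.2 _ hx _ hxw with h | h
        · left
          rw [mem_map_equiv, Equiv.symm_symm]
          exact h
        · right
          rw [← h, Equiv.symm_apply_apply]
      · rw [mem_map_equiv, Equiv.symm_symm, Equiv.apply_symm_apply]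
        exact ha
      · rw [mem_map_equiv, Equiv.symm_symm, Equiv.apply_symm_apply]
        exact hb
      · exact fun h => hbv (e.symm.injective h)
  have back : ∀ H : SimpleGraph W, ∃ G : SimpleGraph V, G.comap e = H := by
    intro H
    refine ⟨H.comap e.symm, ?_⟩
    ext a b
    simp
  constructor
  · rintro ⟨⟨H, hH⟩, h2⟩
    obtain ⟨G, rfl⟩ := back H
    refine ⟨⟨G, fun v => ?_⟩, ?_⟩
    · have := hH (e.symm v)
      rw [dgc, Equiv.apply_symm_apply] at this
      simpa using this
    · intro G' hG' hc
      exact h2 (G'.comap e) (fun w => by rw [dgc, hG']) ((cutc G').2 hc)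
  · rintro ⟨⟨G, hG⟩, h2⟩
    refine ⟨⟨G.comap e, fun w => by rw [dgc, hG]⟩, ?_⟩
    intro H hH hc
    obtain ⟨G', rfl⟩ := back H
    refine h2 G' (fun v => ?_) ((cutc G').1 hc)
    have := hH (e.symm v)
    rw [dgc, Equiv.apply_symm_apply] at this
    simpa using this

/-- Two functions with the same multiset of values differ by a bijection. -/
theorem exists_equiv_of_map_eq {f : V → ℕ} {g : W → ℕ}
    (h : (univ : Finset V).val.map f = (univ : Finset W).val.map g) :
    ∃ e : V ≃ W, ∀ v, g (e v) = f v := by
  have hc : ∀ c, Fintype.card {a // f a = c} = Fintype.card {b // g b = c} := by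
    intro c
    have h1 := congrArg (Multiset.count c) h
    rw [Multiset.count_map, Multiset.count_map] at h1
    rw [Fintype.card_subtype, Fintype.card_subtype]
    have e1 : (univ.filter (fun a => f a = c)).card =
        (Multiset.filter (fun a => c = f a) (univ : Finset V).val).card := by
      rw [card_def, filter_val]
      congr 1
      exact Multiset.filter_congr (fun x _ => eq_comm)
    have e2 : (univ.filter (fun a => g a = c)).card =
        (Multiset.filter (fun a => c = g a) (univ : Finset W).val).card := by
      rw [card_def, filter_val]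
      congr 1
      exact Multiset.filter_congr (fun x _ => eq_comm)
    rw [e1, e2]
    exact h1
  have e : ∀ c, {a // f a = c} ≃ {b // g b = c} := fun c => Fintype.equivOfCardEq (hc c)
  exact ⟨Equiv.ofFiberEquiv e, fun v => Equiv.ofFiberEquiv_map e v⟩

theorem fbt_congr {f : V → ℕ} {g : W → ℕ}
    (h : (univ : Finset V).val.map f = (univ : Finset W).val.map g) : FBt f ↔ FBt g := by
  obtain ⟨e, he⟩ := exists_equiv_of_map_eq h
  rw [← fbt_comp e g]
  have : (fun w => g (e w)) = f := funext he
  rw [this]

/-- Forcibly biconnected, for lists. -/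
def FBl (l : List ℕ) : Prop := FBt (fun i : Fin l.length => l.get i)

lemma map_get_univ (l : List ℕ) :
    (univ : Finset (Fin l.length)).val.map (fun i => l.get i) = (l : Multiset ℕ) := by
  have h1 : (univ : Finset (Fin l.length)).val = (List.finRange l.length : Multiset _) := rfl
  rw [h1, Multiset.map_coe]
  congr 1
  exact List.map_get_finRange l

theorem fbl_iff {d : V → ℕ} {l : List ℕ}
    (h : (univ : Finset V).val.map d = (l : Multiset ℕ)) : FBl l ↔ FBt d := by
  unfold FBl
  exact fbt_congr (by rw [map_get_univ, h])

lemma ncard_neighborSet (G : SimpleGraph V) (i : V) : (G.neighborSet i).ncard = dg G i := by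
  unfold dg
  rw [← Set.ncard_coe_finset]
  congr 1
  ext w
  simp

theorem forciblyBiconnected_iff {n : ℕ} (hn : 3 ≤ n) (d : Fin n → ℕ) :
    ForciblyBiconnected d ↔ FBt d := by
  have h1 : ∀ G : SimpleGraph (Fin n), IsRealization d G ↔ RealT d G := by
    intro G
    unfold IsRealization RealT
    simp only [ncard_neighborSet]
  have h2 : ∀ G : SimpleGraph (Fin n), TwoConnected G ↔ ¬ HasCut G :=
    fun G => twoConnected_iff (by rw [Fintype.card_fin]; exact hn) G
  unfold ForciblyBiconnected FBt
  simp only [h1, h2]

end Pool.Agent.Lib.MP_4eff47_co
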