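import Pool.Agent.Lib.MP_4eff47_co.Link

/-!
# Sorted lists: counting, and the insertion move
-/

namespace Pool.Agent.Lib.MP_4eff47_co

open Finset
open scoped Classical

set_option linter.unusedSectionVars false

/-- Non-increasing lists of length `a` with entries at most `b`. -/
noncomputable def Lst : ℕ → ℕ → Finset (List ℕ)
  | 0, _ => {[]}
  | a + 1, 0 => (Lst a 0).image (List.cons 0)
  | a + 1, b + 1 => Lst (a + 1) b ∪ (Lst a (b + 1)).image (List.cons (b + 1))
termination_by a b => (a, b)

theorem mem_Lst : ∀ (a b : ℕ) (l : List ℕ), l ∈ Lst a b ↔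
    l.length = a ∧ l.Pairwise (· ≥ ·) ∧ ∀ x ∈ l, x ≤ b
  | 0, b, l => by
    rw [Lst, mem_singleton]
    constructor
    · rintro rfl
      simp
    · rintro ⟨h, -, -⟩
      exact List.length_eq_zero_iff.1 h
  | a + 1, 0, l => by
    rw [Lst, mem_image]
    constructor
    · rintro ⟨m, hm, rfl⟩
      rw [mem_Lst a 0 m] at hm
      obtain ⟨h1, h2, h3⟩ := hm
      refine ⟨by simp [h1], List.pairwise_cons.2 ⟨fun y hy => h3 y hy, h2⟩, ?_⟩
      intro x hx
      rcases List.mem_cons.1 hx with h | h
      · omega
      · exact h3 x h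
    · rintro ⟨h1, h2, h3⟩
      cases l with
      | nil => simp at h1
      | cons y m =>
        have hy : y = 0 := by
          have := h3 y (List.mem_cons_self ..)
          omega
        subst hy
        refine ⟨m, (mem_Lst a 0 m).2 ⟨by simpa using h1, (List.pairwise_cons.1 h2).2, ?_⟩, rfl⟩
        intro x hx
        exact h3 x (List.mem_cons_of_mem _ hx)
  | a + 1, b + 1, l => by
    rw [Lst, mem_union, mem_image, mem_Lst (a + 1) b l]
    constructor
    · rintro (⟨h1, h2, h3⟩ | ⟨m, hm, rfl⟩)
      · exact ⟨h1, h2, fun x hx => (h3 x hx).trans (Nat.le_succ b)⟩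
      · rw [mem_Lst a (b + 1) m] at hm
        obtain ⟨h1, h2, h3⟩ := hm
        refine ⟨by simp [h1], List.pairwise_cons.2 ⟨fun y hy => h3 y hy, h2⟩, ?_⟩
        intro x hx
        rcases List.mem_cons.1 hx with h | h
        · omega
        · exact h3 x h
    · rintro ⟨h1, h2, h3⟩
      cases l with
      | nil => simp at h1
      | cons y m =>
        by_cases hy : y = b + 1
        · right
          subst hy
          refine ⟨m, (mem_Lst a (b + 1) m).2 ⟨by simpa using h1,
            (List.pairwise_cons.1 h2).2, ?_⟩, rfl⟩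
          intro x hx
          exact h3 x (List.mem_cons_of_mem _ hx)
        · left
          have hy' : y ≤ b := by
            have := h3 y (List.mem_cons_self ..)
            omega
          refine ⟨h1, h2, ?_⟩
          intro x hx
          rcases List.mem_cons.1 hx with h | h
          · omega
          · have := (List.pairwise_cons.1 h2).1 x h
            omega
termination_by a b => (a, b)

theorem card_Lst_le {u v : ℝ} (hu : 0 < u) (hv : 0 < v) (h : 1 / u + 1 / v ≤ 1) :
    ∀ a b : ℕ, ((Lst a b).card : ℝ) ≤ u ^ a * v ^ b := by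
  have hu1 : 1 ≤ u := by
    have : 1 / u ≤ 1 := by
      have : 0 < 1 / v := by positivity
      linarith
    rwa [div_le_one hu] at this
  have hv1 : 1 ≤ v := by
    have : 1 / v ≤ 1 := by
      have : 0 < 1 / u := by positivity
      linarith
    rwa [div_le_one hv] at this
  intro a
  induction a with
  | zero =>
    intro b
    rw [Lst, card_singleton, pow_zero, one_mul, Nat.cast_one]
    exact one_le_pow₀ hv1
  | succ a ih =>
    intro b
    induction b with
    | zero =>
      rw [Lst]
      have h1 : (((Lst a 0).image (List.cons 0)).card : ℝ) ≤ (Lst a 0).card := by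
        exact_mod_cast card_image_le
      have h2 := ih 0
      rw [pow_zero, mul_one] at h2 ⊢
      calc _ ≤ _ := h1
        _ ≤ u ^ a := h2
        _ ≤ u ^ (a + 1) := pow_le_pow_right₀ hu1 (Nat.le_succ a)
    | succ b ihb =>
      rw [Lst]
      have h1 : ((Lst (a + 1) b ∪ (Lst a (b + 1)).image (List.cons (b + 1))).card : ℝ) ≤
          (Lst (a + 1) b).card + (Lst a (b + 1)).card := by
        have e1 := card_union_le (Lst (a + 1) b) ((Lst a (b + 1)).image (List.cons (b + 1)))
        have e2 : ((Lst a (b + 1)).image (List.cons (b + 1))).card ≤ (Lst a (b + 1)).card :=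
          card_image_le
        exact_mod_cast e1.trans (Nat.add_le_add_left e2 _)
      have h2 := ih (b + 1)
      have h3 : u ^ (a + 1) * v ^ b + u ^ a * v ^ (b + 1) =
          (u ^ (a + 1) * v ^ (b + 1)) * (1 / u + 1 / v) := by
        field_simp
        ring
      have h4 : (u ^ (a + 1) * v ^ (b + 1)) * (1 / u + 1 / v) ≤ u ^ (a + 1) * v ^ (b + 1) := by
        apply mul_le_of_le_one_right _ h
        positivity
      linarith

/-- Non-increasing forcibly biconnected lists of length `n`. -/
noncomputable def S (n : ℕ) : Finset (List ℕ) := (Lst n n).filter FBl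

lemma dg_lt {V : Type*} [Fintype V] (G : SimpleGraph V) (v : V) : dg G v < Fintype.card V := by
  have h1 : nb G v ⊆ univ.erase v := by
    intro w hw
    rw [mem_nb] at hw
    rw [mem_erase]
    exact ⟨hw.ne.symm, mem_univ _⟩
  have h2 := card_le_card h1
  have h3 := card_erase_add_one (mem_univ v)
  rw [card_univ] at h3
  unfold dg
  omega

lemma FBl.lt {l : List ℕ} (h : FBl l) : ∀ x ∈ l, x < l.length := by
  intro x hx
  obtain ⟨⟨G, hG⟩, -⟩ := h
  obtain ⟨i, hi, rfl⟩ := List.getElem_of_mem hx
  have h1 := hG ⟨i, hi⟩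
  have h2 := dg_lt G ⟨i, hi⟩
  rw [h1, Fintype.card_fin] at h2
  exact h2

theorem mem_S {n : ℕ} {l : List ℕ} : l ∈ S n ↔ l.length = n ∧ l.Pairwise (· ≥ ·) ∧ FBl l := by
  unfold S
  rw [mem_filter, mem_Lst]
  constructor
  · rintro ⟨⟨h1, h2, -⟩, h3⟩
    exact ⟨h1, h2, h3⟩
  · rintro ⟨h1, h2, h3⟩
    refine ⟨⟨h1, h2, ?_⟩, h3⟩
    intro x hx
    have := h3.lt x hx
    omega

theorem D2f_eq {n : ℕ} (hn : 3 ≤ n) : D2f n = (S n).card := by
  have h1 : (S n : Set (List ℕ)) =
      (List.ofFn : (Fin n → ℕ) → List ℕ) '' {d : Fin n → ℕ | Antitone d ∧ ForciblyBiconnected d} := by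
    have key : ∀ d : Fin n → ℕ, FBl (List.ofFn d) ↔ FBt d := by
      intro d
      apply fbl_iff
      have h1 : (univ : Finset (Fin n)).val = (List.finRange n : Multiset _) := rfl
      rw [h1, Multiset.map_coe]
      congr 1
      exact (List.ofFn_eq_map).symm
    ext l
    rw [mem_coe, mem_S, Set.mem_image]
    constructor
    · rintro ⟨h1, h2, h3⟩
      subst h1
      refine ⟨l.get, ⟨?_, ?_⟩, List.ofFn_get l⟩
      · exact List.sortedGE_iff_antitone_get.1 (List.sortedGE_iff_pairwise.2 h2)
      · rw [forciblyBiconnected_iff hn]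
        exact h3
    · rintro ⟨d, ⟨h1, h2⟩, rfl⟩
      refine ⟨List.length_ofFn, ?_, ?_⟩
      · exact List.sortedGE_iff_pairwise.1 (List.sortedGE_ofFn_iff.2 h1)
      · rw [key, ← forciblyBiconnected_iff hn]
        exact h2
  unfold D2f
  rw [← Set.ncard_image_of_injective _ List.ofFn_injective, ← h1, Set.ncard_coe_finset]

end Pool.Agent.Lib.MP_4eff47_co
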